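import Pool.Agent.Run7.h320.RG.I

/-!
# The largest degrees of very sparse random graphs, in terms of graphs
-/

set_option autoImplicit false

namespace Pool.Agent.Run7.h320.RG

open Finset

/-- `D` is the maximum degree, it is at least `D₀`, and the vertices of degree at least
`k ≤ (1 - ε) D + 1` have pairwise distance at least three. -/
def TameG {n : ℕ} (ε : ℝ) (D₀ : ℕ) (G : SimpleGraph (Fin n)) : Prop :=
  ∃ D k : ℕ, D₀ ≤ D ∧ (k : ℝ) ≤ (1 - ε) * D + 1 ∧ (∀ v, (G.neighborSet v).ncard ≤ D) ∧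
    (∃ v, (G.neighborSet v).ncard = D) ∧
    ∀ u v, u ≠ v → k ≤ (G.neighborSet u).ncard → k ≤ (G.neighborSet v).ncard →
      ¬ G.Adj u v ∧ ∀ w, ¬ (G.Adj u w ∧ G.Adj v w)

theorem tameG_of_tame {n : ℕ} {ε : ℝ} (hε : ε ≤ 1) {D₀ : ℕ} {χ : E n → Bool} (h : Tame ε D₀ χ) :
    TameG ε D₀ (Gr χ) := by
  obtain ⟨m, k, h1, h2, ⟨v₁, h3⟩, h4⟩ := h
  obtain ⟨v₀, -, h5⟩ := Finset.exists_max_image (univ : Finset (Fin n)) (fun v => dg χ v)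
    ⟨v₁, Finset.mem_univ _⟩
  have hdeg : ∀ v, ((Gr χ).neighborSet v).ncard = dg χ v := fun v => deg_eq χ v
  refine ⟨dg χ v₀, k, ?_, ?_, ?_, ⟨v₀, hdeg v₀⟩, ?_⟩
  · exact h1.trans (h3.trans (h5 v₁ (Finset.mem_univ _)))
  · have h6 : (m : ℝ) ≤ dg χ v₀ := by exact_mod_cast h3.trans (h5 v₁ (Finset.mem_univ _))
    have h7 : (1 - ε) * (m : ℝ) ≤ (1 - ε) * (dg χ v₀ : ℝ) :=
      mul_le_mul_of_nonneg_left h6 (by linarith)
    linarith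
  · intro v
    rw [hdeg]
    exact h5 v (Finset.mem_univ _)
  · intro u v huv hu hv
    rw [hdeg] at hu hv
    exact h4 u v huv hu hv

/-- Random graphs of average degree at most `K log n`. -/
theorem whp_tame (K : ℝ) : ∃ ε : ℝ, 0 < ε ∧ ε ≤ 1 ∧ ∀ (D₀ : ℕ) (δ : ℝ), 0 < δ →
    ∃ n₀ : ℕ, ∀ n : ℕ, n₀ ≤ n → ∀ q : ℝ, 1 ≤ n * q → n * q ≤ K * Real.log n →
      ∀ P : SimpleGraph (Fin n) → Prop, (∀ G, TameG ε D₀ G → P G) → 1 - δ ≤ prob q P := by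
  obtain ⟨ε, h0, h1, h⟩ := tame_prob K
  refine ⟨ε, h0, h1, fun D₀ δ hδ => ?_⟩
  obtain ⟨n₀, hn₀⟩ := h D₀ δ hδ
  refine ⟨max n₀ 1, fun n hn q hq hqK P hP => ?_⟩
  obtain ⟨hq1, h2⟩ := hn₀ n ((le_max_left _ _).trans hn) q hq hqK
  have hq0 : 0 ≤ q := by
    by_contra h3
    push Not at h3
    have : (0 : ℝ) ≤ n := Nat.cast_nonneg n
    have := mul_nonpos_of_nonneg_of_nonpos this h3.le
    linarith
  rw [prob_eq]
  refine h2.trans (pr_mono hq0 hq1 fun χ h3 => hP _ (tameG_of_tame h1 h3))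

end Pool.Agent.Run7.h320.RG
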