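import Mathlib

/-!
# Biased coins: independence, the number of heads, Markov and second moment
-/

set_option autoImplicit false

namespace Pool.Agent.Run7.h320.RG

open Finset

section

variable {ι : Type} [Fintype ι] [DecidableEq ι]

/-- the weight of the outcome `χ` if every coin shows `true` with probability `q` -/
noncomputable def wt (q : ℝ) (χ : ι → Bool) : ℝ := ∏ i, if χ i = true then q else 1 - q

open Classical in
/-- probability -/
noncomputable def pr (q : ℝ) (P : (ι → Bool) → Prop) : ℝ := ∑ χ : ι → Bool, if P χ then wt q χ else 0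

theorem pr_def (q : ℝ) (P : (ι → Bool) → Prop) [DecidablePred P] :
    pr q P = ∑ χ : ι → Bool, if P χ then wt q χ else 0 := by
  unfold pr
  refine Finset.sum_congr rfl fun χ _ => ?_
  by_cases h : P χ
  · rw [if_pos h, if_pos h]
  · rw [if_neg h, if_neg h]

theorem sum_wt (q : ℝ) : ∑ χ : ι → Bool, wt q χ = 1 := by
  have h := Finset.prod_univ_sum (fun _ : ι => (univ : Finset Bool))
    (fun _ b => if b = true then q else 1 - q)
  rw [Fintype.piFinset_univ] at h
  unfold wt
  rw [← h]
  simp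

theorem wt_nonneg {q : ℝ} (h0 : 0 ≤ q) (h1 : q ≤ 1) (χ : ι → Bool) : 0 ≤ wt q χ := by
  refine Finset.prod_nonneg fun i _ => ?_
  split_ifs
  · exact h0
  · linarith

theorem pr_nonneg {q : ℝ} (h0 : 0 ≤ q) (h1 : q ≤ 1) (P : (ι → Bool) → Prop) : 0 ≤ pr q P := by
  classical
  rw [pr_def]
  refine Finset.sum_nonneg fun χ _ => ?_
  split_ifs
  · exact wt_nonneg h0 h1 χ
  · exact le_rfl

theorem pr_mono {q : ℝ} (h0 : 0 ≤ q) (h1 : q ≤ 1) {P Q : (ι → Bool) → Prop}
    (h : ∀ χ, P χ → Q χ) : pr q P ≤ pr q Q := by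
  classical
  rw [pr_def, pr_def]
  refine Finset.sum_le_sum fun χ _ => ?_
  by_cases hP : P χ
  · rw [if_pos hP, if_pos (h χ hP)]
  · rw [if_neg hP]
    split_ifs
    · exact wt_nonneg h0 h1 χ
    · exact le_rfl

theorem pr_congr (q : ℝ) {P Q : (ι → Bool) → Prop} (h : ∀ χ, P χ ↔ Q χ) : pr q P = pr q Q := by
  have : P = Q := funext fun χ => propext (h χ)
  rw [this]

theorem pr_or_le {q : ℝ} (h0 : 0 ≤ q) (h1 : q ≤ 1) (P Q : (ι → Bool) → Prop) :
    pr q (fun χ => P χ ∨ Q χ) ≤ pr q P + pr q Q := by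
  classical
  rw [pr_def, pr_def, pr_def, ← Finset.sum_add_distrib]
  refine Finset.sum_le_sum fun χ _ => ?_
  have := wt_nonneg h0 h1 χ
  by_cases hP : P χ <;> by_cases hQ : Q χ <;> simp [hP, hQ, this]

theorem pr_not (q : ℝ) (P : (ι → Bool) → Prop) : pr q (fun χ => ¬ P χ) = 1 - pr q P := by
  classical
  rw [pr_def, pr_def, ← sum_wt (ι := ι) q, ← Finset.sum_sub_distrib]
  refine Finset.sum_congr rfl fun χ _ => ?_
  by_cases hP : P χ <;> simp [hP]

theorem pr_add (q : ℝ) (P Q : (ι → Bool) → Prop) (h : ∀ χ, P χ → ¬ Q χ) :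
    pr q (fun χ => P χ ∨ Q χ) = pr q P + pr q Q := by
  classical
  rw [pr_def, pr_def, pr_def, ← Finset.sum_add_distrib]
  refine Finset.sum_congr rfl fun χ _ => ?_
  by_cases hP : P χ
  · simp [hP, h χ hP]
  · by_cases hQ : Q χ <;> simp [hP, hQ]

theorem pr_exists_le {q : ℝ} (h0 : 0 ≤ q) (h1 : q ≤ 1) {J : Type} (S : Finset J)
    (A : J → (ι → Bool) → Prop) :
    pr q (fun χ => ∃ j ∈ S, A j χ) ≤ ∑ j ∈ S, pr q (A j) := by
  classical
  rw [pr_def, Finset.sum_congr rfl fun j _ => pr_def q (A j), Finset.sum_comm]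
  refine Finset.sum_le_sum fun χ _ => ?_
  have hn : ∀ j ∈ S, 0 ≤ (if A j χ then wt q χ else 0) := by
    intro j _
    split_ifs
    · exact wt_nonneg h0 h1 χ
    · exact le_rfl
  split_ifs with h
  · obtain ⟨j, hj, hA⟩ := h
    calc wt q χ = if A j χ then wt q χ else 0 := (if_pos hA).symm
      _ ≤ _ := Finset.single_le_sum hn hj
  · exact Finset.sum_nonneg hn

/-- `a` on `S` and `b` off `S` -/
def mix (S : Finset ι) (a b : ι → Bool) : ι → Bool := fun i => if i ∈ S then a i else b i

theorem mix_mem {S : Finset ι} {a b : ι → Bool} {i : ι} (h : i ∈ S) : mix S a b i = a i := if_pos h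

theorem mix_not {S : Finset ι} {a b : ι → Bool} {i : ι} (h : i ∉ S) : mix S a b i = b i := if_neg h

theorem mix_mix (S : Finset ι) (a b : ι → Bool) : mix S (mix S a b) (mix S b a) = a := by
  ext i
  by_cases h : i ∈ S
  · rw [mix_mem h, mix_mem h]
  · rw [mix_not h, mix_not h]

theorem wt_mix (q : ℝ) (S : Finset ι) (a b : ι → Bool) :
    wt q (mix S a b) * wt q (mix S b a) = wt q a * wt q b := by
  unfold wt
  rw [← Finset.prod_mul_distrib, ← Finset.prod_mul_distrib]
  refine Finset.prod_congr rfl fun i _ => ?_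
  by_cases h : i ∈ S
  · rw [mix_mem h, mix_mem h]
  · rw [mix_not h, mix_not h, mul_comm]

theorem indep (q : ℝ) (S T : Finset ι) (hST : Disjoint S T) (P Q : (ι → Bool) → Prop)
    (hP : ∀ χ χ', (∀ i ∈ S, χ i = χ' i) → P χ → P χ')
    (hQ : ∀ χ χ', (∀ i ∈ T, χ i = χ' i) → Q χ → Q χ') :
    pr q (fun χ => P χ ∧ Q χ) = pr q P * pr q Q := by
  classical
  have h1 : pr q (fun χ => P χ ∧ Q χ) = (∑ χ : ι → Bool, if P χ ∧ Q χ then wt q χ else 0) *
      ∑ χ : ι → Bool, wt q χ := by
    rw [sum_wt, mul_one, pr_def]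
  rw [h1, pr_def, pr_def, Finset.sum_mul_sum, Finset.sum_mul_sum, ← Finset.sum_product',
    ← Finset.sum_product']
  refine Finset.sum_nbij' (fun r => (mix S r.1 r.2, mix S r.2 r.1))
      (fun r => (mix S r.1 r.2, mix S r.2 r.1)) ?_ ?_ ?_ ?_ ?_
  · intro r _
    simp
  · intro r _
    simp
  · rintro ⟨a, b⟩ _
    simp only [mix_mix]
  · rintro ⟨a, b⟩ _
    simp only [mix_mix]
  · rintro ⟨a, b⟩ _
    have e1 : P (mix S a b) ↔ P a :=
      ⟨hP _ a fun i hi => mix_mem hi, hP a _ fun i hi => (mix_mem hi).symm⟩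
    have e2 : Q (mix S b a) ↔ Q a :=
      ⟨hQ _ a fun i hi => mix_not (Finset.disjoint_right.1 hST hi),
        hQ a _ fun i hi => (mix_not (Finset.disjoint_right.1 hST hi)).symm⟩
    simp only
    by_cases hp : P a <;> by_cases hq : Q a <;> simp [e1, e2, hp, hq, wt_mix]

theorem pr_coin (q : ℝ) (i : ι) : pr q (fun χ => χ i = true) = q := by
  classical
  have h := Finset.prod_univ_sum (fun j : ι => (univ : Finset Bool))
    (fun j b => if b = true then q else if j = i then 0 else 1 - q)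
  rw [Fintype.piFinset_univ] at h
  rw [pr_def]
  have h2 : ∀ χ : ι → Bool, (if χ i = true then wt q χ else 0) =
      ∏ j, if χ j = true then q else if j = i then 0 else 1 - q := by
    intro χ
    split_ifs with hi
    · unfold wt
      refine Finset.prod_congr rfl fun j _ => ?_
      by_cases hj : j = i
      · subst hj
        rw [if_pos hi, if_pos hi]
      · rw [if_neg hj]
    · symm
      refine Finset.prod_eq_zero (Finset.mem_univ i) ?_
      rw [if_neg hi, if_pos rfl]
  rw [Finset.sum_congr rfl fun χ _ => h2 χ, ← h]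
  rw [Finset.prod_eq_single i]
  · simp
  · intro j _ hj
    simp [hj]
  · intro h
    exact absurd (Finset.mem_univ i) h

/-- Markov -/
theorem markov {q : ℝ} (h0 : 0 ≤ q) (h1 : q ≤ 1) {J : Type} (S : Finset J)
    (A : J → (ι → Bool) → Prop) (B : (ι → Bool) → Finset J) (hB : ∀ χ, B χ ⊆ S)
    (hBA : ∀ χ, ∀ v ∈ B χ, A v χ) (x : ℝ) (hx : 0 < x) :
    pr q (fun χ => x < ((B χ).card : ℝ)) ≤ (∑ v ∈ S, pr q (A v)) / x := by
  classical
  rw [le_div_iff₀ hx, pr_def, Finset.sum_congr rfl fun v _ => pr_def q (A v), Finset.sum_comm,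
    Finset.sum_mul]
  refine Finset.sum_le_sum fun χ _ => ?_
  have hw := wt_nonneg h0 h1 χ
  split_ifs with h
  · have h2 : ((B χ).card : ℝ) ≤ ((S.filter fun v => A v χ).card : ℝ) := by
      exact_mod_cast Finset.card_le_card fun v hv => by
        rw [Finset.mem_filter]
        exact ⟨hB χ hv, hBA χ v hv⟩
    rw [← Finset.sum_filter, Finset.sum_const, nsmul_eq_mul, mul_comm]
    exact mul_le_mul_of_nonneg_right (h.le.trans h2) hw
  · rw [zero_mul]
    refine Finset.sum_nonneg fun v _ => ?_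
    split_ifs
    · exact hw
    · exact le_rfl

/-- second moment method -/
theorem second_moment {q : ℝ} (h0 : 0 ≤ q) (h1 : q ≤ 1) {J : Type} (S : Finset J)
    (A : J → (ι → Bool) → Prop) :
    pr q (fun χ => ∀ v ∈ S, ¬ A v χ) * (∑ v ∈ S, pr q (A v)) ^ 2 ≤
      ∑ u ∈ S, ∑ v ∈ S, pr q (fun χ => A u χ ∧ A v χ) - (∑ v ∈ S, pr q (A v)) ^ 2 := by
  classical
  set μ : ℝ := ∑ v ∈ S, pr q (A v) with hμ
  set a : J → (ι → Bool) → ℝ := fun v χ => if A v χ then (1 : ℝ) else 0 with ha
  set X : (ι → Bool) → ℝ := fun χ => ∑ v ∈ S, a v χ with hX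
  have e1 : ∑ χ, wt q χ * X χ = μ := by
    rw [hμ, Finset.sum_congr rfl fun v _ => pr_def q (A v), Finset.sum_comm]
    refine Finset.sum_congr rfl fun χ _ => ?_
    rw [hX, Finset.mul_sum]
    refine Finset.sum_congr rfl fun v _ => ?_
    rw [ha]
    by_cases h : A v χ <;> simp [h]
  have e2 : ∑ χ, wt q χ * X χ ^ 2 = ∑ u ∈ S, ∑ v ∈ S, pr q (fun χ => A u χ ∧ A v χ) := by
    rw [Finset.sum_congr rfl fun u _ => Finset.sum_congr rfl fun v _ => pr_def q _,
      Finset.sum_congr rfl fun u _ => Finset.sum_comm, Finset.sum_comm]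
    refine Finset.sum_congr rfl fun χ _ => ?_
    rw [hX, sq, Finset.sum_mul_sum, Finset.mul_sum]
    refine Finset.sum_congr rfl fun u _ => ?_
    rw [Finset.mul_sum]
    refine Finset.sum_congr rfl fun v _ => ?_
    rw [ha]
    by_cases h1 : A u χ <;> by_cases h2 : A v χ <;> simp [h1, h2]
  have e3 : ∑ χ, wt q χ * (X χ - μ) ^ 2 =
      ∑ u ∈ S, ∑ v ∈ S, pr q (fun χ => A u χ ∧ A v χ) - μ ^ 2 := by
    have : ∀ χ : ι → Bool, wt q χ * (X χ - μ) ^ 2 =
        wt q χ * X χ ^ 2 - 2 * μ * (wt q χ * X χ) + μ ^ 2 * wt q χ := fun χ => by ring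
    rw [Finset.sum_congr rfl fun χ _ => this χ, Finset.sum_add_distrib, Finset.sum_sub_distrib,
      ← Finset.mul_sum, ← Finset.mul_sum, e1, e2, sum_wt]
    ring
  rw [← e3, pr_def, Finset.sum_mul]
  refine Finset.sum_le_sum fun χ _ => ?_
  have hw := wt_nonneg h0 h1 χ
  split_ifs with h
  · have : X χ = 0 := by
      rw [hX]
      exact Finset.sum_eq_zero fun v hv => by rw [ha]; simp [h v hv]
    rw [this]
    nlinarith
  · rw [zero_mul]
    positivity

end

/-- binomial probabilities -/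
noncomputable def pb (q : ℝ) (d k : ℕ) : ℝ := (d.choose k : ℝ) * q ^ k * (1 - q) ^ (d - k)

/-- binomial tails -/
noncomputable def tb (q : ℝ) (d k : ℕ) : ℝ := ∑ j ∈ Icc k d, pb q d j

theorem pb_rec (q : ℝ) (d k : ℕ) :
    pb q (d + 1) (k + 1) = q * pb q d k + (1 - q) * pb q d (k + 1) := by
  unfold pb
  rw [Nat.choose_succ_succ]
  push_cast
  rcases le_or_gt d k with h | h
  · have h1 : d.choose (k + 1) = 0 := Nat.choose_eq_zero_of_lt (by omega)
    have h3 : d - k = 0 := by omega
    have h4 : d + 1 - (k + 1) = 0 := by omega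
    simp only [Nat.succ_eq_add_one, h1, h3, h4]
    push_cast
    ring
  · have h3 : d - k = (d - (k + 1)) + 1 := by omega
    have h4 : d + 1 - (k + 1) = (d - (k + 1)) + 1 := by omega
    simp only [Nat.succ_eq_add_one, h4]
    rw [h3]
    ring

theorem pb_rec0 (q : ℝ) (d : ℕ) : pb q (d + 1) 0 = (1 - q) * pb q d 0 := by
  unfold pb
  simp
  ring

theorem bin_eq {ι : Type} [Fintype ι] [DecidableEq ι] (q : ℝ) (S : Finset ι) : ∀ k : ℕ,
    pr q (fun χ : ι → Bool => (S.filter (fun i => χ i = true)).card = k) = pb q S.card k := by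
  classical
  induction S using Finset.induction_on with
  | empty =>
    intro k
    rcases k with _ | k
    · have : pr q (fun χ : ι → Bool =>
          ((∅ : Finset ι).filter (fun i => χ i = true)).card = 0) = 1 := by
        rw [pr_def]
        simp [sum_wt]
      rw [this]
      simp [pb]
    · have : pr q (fun χ : ι → Bool =>
          ((∅ : Finset ι).filter (fun i => χ i = true)).card = k + 1) = 0 := by
        rw [pr_def]
        simp
      rw [this]
      simp [pb]
  | insert i S hi ih =>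
    intro k
    rw [Finset.card_insert_of_notMem hi]
    have loc : ∀ (k : ℕ) (χ χ' : ι → Bool), (∀ j ∈ S, χ j = χ' j) →
        (S.filter (fun i => χ i = true)).card = k → (S.filter (fun i => χ' i = true)).card = k := by
      intro k χ χ' h hk
      rw [← hk]
      congr 1
      exact Finset.filter_congr fun j hj => by rw [h j hj]
    have d1 : Disjoint ({i} : Finset ι) S := by
      rw [Finset.disjoint_singleton_left]
      exact hi
    have t1 : ∀ k, pr q (fun χ : ι → Bool => χ i = true ∧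
        (S.filter (fun i => χ i = true)).card = k) = q * pb q S.card k := by
      intro k
      rw [indep q {i} S d1 (fun χ => χ i = true)
        (fun χ => (S.filter (fun i => χ i = true)).card = k)
        (fun χ χ' h h' => by rw [← h i (Finset.mem_singleton_self i)]; exact h') (loc k),
        pr_coin, ih k]
    have t2 : ∀ k, pr q (fun χ : ι → Bool => ¬ χ i = true ∧
        (S.filter (fun i => χ i = true)).card = k) = (1 - q) * pb q S.card k := by
      intro k
      rw [indep q {i} S d1 (fun χ => ¬ χ i = true)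
        (fun χ => (S.filter (fun i => χ i = true)).card = k)
        (fun χ χ' h h' => by rw [← h i (Finset.mem_singleton_self i)]; exact h') (loc k),
        pr_not, pr_coin, ih k]
    have cf : ∀ χ : ι → Bool, ((insert i S).filter (fun i => χ i = true)).card =
        (S.filter (fun i => χ i = true)).card + if χ i = true then 1 else 0 := by
      intro χ
      rw [Finset.filter_insert]
      split_ifs with h
      · rw [Finset.card_insert_of_notMem]
        intro h'
        exact hi (Finset.mem_filter.1 h').1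
      · rfl
    rcases k with _ | k
    · rw [pb_rec0, ← t2 0]
      refine pr_congr q fun χ => ?_
      rw [cf χ]
      by_cases h : χ i = true <;> simp [h]
    · rw [pb_rec, ← t1 k, ← t2 (k + 1), ← pr_add]
      · refine pr_congr q fun χ => ?_
        rw [cf χ]
        by_cases h : χ i = true <;> simp [h]
      · intro χ h h'
        exact h'.1 h.1

theorem pb_nonneg {q : ℝ} (h0 : 0 ≤ q) (h1 : q ≤ 1) (d k : ℕ) : 0 ≤ pb q d k := by
  unfold pb
  have : 0 ≤ 1 - q := by linarith
  positivity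

theorem tb_nonneg {q : ℝ} (h0 : 0 ≤ q) (h1 : q ≤ 1) (d k : ℕ) : 0 ≤ tb q d k :=
  Finset.sum_nonneg fun j _ => pb_nonneg h0 h1 d j

theorem tb_anti {q : ℝ} (h0 : 0 ≤ q) (h1 : q ≤ 1) (d : ℕ) {k l : ℕ} (h : k ≤ l) :
    tb q d l ≤ tb q d k :=
  Finset.sum_le_sum_of_subset_of_nonneg (Finset.Icc_subset_Icc_left h)
    fun j _ _ => pb_nonneg h0 h1 d j

theorem pb_eq_zero {q : ℝ} {d k : ℕ} (h : d < k) : pb q d k = 0 := by
  unfold pb
  rw [Nat.choose_eq_zero_of_lt h]
  simp

theorem tb_succ (q : ℝ) (d k : ℕ) : tb q d k = pb q d k + tb q d (k + 1) := by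
  unfold tb
  rcases le_or_gt k d with h | h
  · rw [← Finset.insert_Icc_add_one_left_eq_Icc h, Finset.sum_insert]
    simp
  · rw [Finset.Icc_eq_empty (by omega), Finset.Icc_eq_empty (by omega), pb_eq_zero h]
    simp

theorem bin_ge {ι : Type} [Fintype ι] [DecidableEq ι] (q : ℝ) (S : Finset ι) (k : ℕ) :
    pr q (fun χ : ι → Bool => k ≤ (S.filter (fun i => χ i = true)).card) = tb q S.card k := by
  classical
  unfold tb
  rw [← Finset.sum_congr rfl fun j _ => bin_eq q S j, pr_def,
    Finset.sum_congr rfl fun j _ => pr_def q _, Finset.sum_comm]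
  refine Finset.sum_congr rfl fun χ _ => ?_
  split_ifs with h
  · rw [Finset.sum_eq_single (S.filter (fun i => χ i = true)).card]
    · rw [if_pos rfl]
    · intro j _ hj
      rw [if_neg (fun e => hj e.symm)]
    · intro h'
      exact absurd (Finset.mem_Icc.2 ⟨h, Finset.card_filter_le _ _⟩) h'
  · symm
    refine Finset.sum_eq_zero fun j hj => ?_
    rw [if_neg]
    intro e
    exact h (e ▸ (Finset.mem_Icc.1 hj).1)

theorem tb_zero (q : ℝ) (d : ℕ) : tb q d 0 = 1 := by
  unfold tb pb
  have h := add_pow q (1 - q) d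
  rw [add_sub_cancel, one_pow] at h
  refine Eq.trans ?_ h.symm
  refine Finset.sum_congr ?_ fun j _ => by ring
  ext j
  simp

end Pool.Agent.Run7.h320.RG
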