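import Pool.Agent.Run7.h320.RG.A

/-!
# Binomial tails
-/

set_option autoImplicit false

namespace Pool.Agent.Run7.h320.RG

open Finset

theorem pb_step (q : ℝ) (d k : ℕ) :
    pb q d (k + 1) * (((k : ℝ) + 1) * (1 - q)) = ((d - k : ℕ) : ℝ) * q * pb q d k := by
  unfold pb
  rcases le_or_gt d k with h | h
  · have h1 : d.choose (k + 1) = 0 := Nat.choose_eq_zero_of_lt (by omega)
    have h2 : d - k = 0 := by omega
    rw [h1, h2]
    simp
  · have h1 : (d.choose (k + 1) : ℝ) * ((k : ℝ) + 1) = (d.choose k : ℝ) * ((d - k : ℕ) : ℝ) := by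
      exact_mod_cast Nat.choose_succ_right_eq d k
    have h2 : d - k = (d - (k + 1)) + 1 := by omega
    have h3 : (1 - q) ^ (d - k) = (1 - q) ^ (d - (k + 1)) * (1 - q) := by
      rw [h2, pow_succ]
    calc (d.choose (k + 1) : ℝ) * q ^ (k + 1) * (1 - q) ^ (d - (k + 1)) * (((k : ℝ) + 1) * (1 - q))
        = ((d.choose (k + 1) : ℝ) * ((k : ℝ) + 1)) * q ^ (k + 1) *
            ((1 - q) ^ (d - (k + 1)) * (1 - q)) := by ring
      _ = ((d.choose k : ℝ) * ((d - k : ℕ) : ℝ)) * q ^ (k + 1) * (1 - q) ^ (d - k) := by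
          rw [h1, h3]
      _ = _ := by ring

theorem pb_ratio {q c l : ℝ} (hq : 0 < q) (hc : 0 < c) (hqc : q ≤ 1 - c) (hl : 0 ≤ l) (d k : ℕ)
    (hd : 0 < (d : ℝ) * q) (hk : (k : ℝ) ≤ d * q + l) :
    (1 - (l + 1) / (c * (d * q))) * pb q d k ≤ pb q d (k + 1) := by
  have hq1 : 0 < 1 - q := by linarith
  have hp0 : 0 ≤ pb q d k := pb_nonneg hq.le (by linarith) d k
  have hk0 : (0 : ℝ) ≤ k := Nat.cast_nonneg k
  rcases le_or_gt k d with hkd | hkd
  · have hcast : ((d - k : ℕ) : ℝ) = d - k := by push_cast [Nat.cast_sub hkd]; ring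
    have hs := pb_step q d k
    rw [hcast] at hs
    have hpos : 0 < ((k : ℝ) + 1) * (1 - q) := by positivity
    refine le_of_mul_le_mul_right ?_ hpos
    rw [hs]
    set μ : ℝ := d * q with hμ
    have hη0 : 0 ≤ (l + 1) / (c * μ) := by positivity
    have key : (1 - (l + 1) / (c * μ)) * (((k : ℝ) + 1) * (1 - q)) ≤ (d - k) * q := by
      have h2 : ((k : ℝ) + 1) * (1 - q) - (d - k) * q = k + 1 - q - μ := by
        rw [hμ]
        ring
      have h3 : (k : ℝ) + 1 - q - μ ≤ (l + 1) / (c * μ) * (((k : ℝ) + 1) * (1 - q)) := by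
        rcases le_or_gt ((k : ℝ) + 1) μ with h | h
        · have : 0 ≤ (l + 1) / (c * μ) * (((k : ℝ) + 1) * (1 - q)) := by positivity
          linarith
        · have h5 : c * μ ≤ ((k : ℝ) + 1) * (1 - q) := by
            have : c ≤ 1 - q := by linarith
            nlinarith
          have h6 : (l + 1) / (c * μ) * (c * μ) ≤ (l + 1) / (c * μ) * (((k : ℝ) + 1) * (1 - q)) :=
            mul_le_mul_of_nonneg_left h5 hη0
          have h7 : (l + 1) / (c * μ) * (c * μ) = l + 1 := by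
            field_simp
          linarith
      linarith
    calc (1 - (l + 1) / (c * μ)) * pb q d k * (((k : ℝ) + 1) * (1 - q))
        = ((1 - (l + 1) / (c * μ)) * (((k : ℝ) + 1) * (1 - q))) * pb q d k := by ring
      _ ≤ ((d - k) * q) * pb q d k := mul_le_mul_of_nonneg_right key hp0
      _ = _ := by ring
  · rw [pb_eq_zero hkd, mul_zero]
    exact pb_nonneg hq.le (by linarith) d (k + 1)

theorem chernoff {q l : ℝ} (hq : 0 < q) (hq1 : q ≤ 1) (d k : ℕ) (hd : 0 < (d : ℝ) * q)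
    (hl : 0 ≤ l) (hl2 : l ≤ 2 * (d * q)) (hk : (d : ℝ) * q + l ≤ k) :
    tb q d k ≤ Real.exp (-(l ^ 2 / (4 * (d * q)))) := by
  set μ : ℝ := d * q with hμ
  set θ : ℝ := l / (2 * μ) with hθ
  have hθ0 : 0 ≤ θ := by positivity
  have hθ1 : θ ≤ 1 := by
    rw [hθ, div_le_one (by positivity)]
    exact hl2
  have hq2 : 0 ≤ 1 - q := by linarith
  have h1 : tb q d k ≤ ∑ j ∈ range (d + 1), pb q d j * Real.exp (θ * ((j : ℝ) - k)) := by
    unfold tb
    have h2 : ∀ j ∈ Icc k d, pb q d j ≤ pb q d j * Real.exp (θ * ((j : ℝ) - k)) := by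
      intro j hj
      have h3 : (k : ℝ) ≤ j := by exact_mod_cast (Finset.mem_Icc.1 hj).1
      have h4 : 0 ≤ θ * ((j : ℝ) - k) := mul_nonneg hθ0 (by linarith)
      have h5 : 1 ≤ Real.exp (θ * ((j : ℝ) - k)) := Real.one_le_exp h4
      have h6 := pb_nonneg hq.le hq1 d j
      nlinarith
    refine (Finset.sum_le_sum h2).trans ?_
    refine Finset.sum_le_sum_of_subset_of_nonneg ?_ ?_
    · intro j hj
      rw [Finset.mem_Icc] at hj
      rw [Finset.mem_range]
      omega
    · intro j _ _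
      exact mul_nonneg (pb_nonneg hq.le hq1 d j) (Real.exp_pos _).le
  have h2 : ∑ j ∈ range (d + 1), pb q d j * Real.exp (θ * ((j : ℝ) - k)) =
      Real.exp (-(θ * k)) * (q * Real.exp θ + (1 - q)) ^ d := by
    rw [add_pow, Finset.mul_sum]
    refine Finset.sum_congr rfl fun j _ => ?_
    unfold pb
    have h3 : Real.exp (θ * ((j : ℝ) - k)) = Real.exp (-(θ * k)) * Real.exp θ ^ j := by
      rw [← Real.exp_nat_mul, ← Real.exp_add]
      congr 1
      ring
    rw [h3, mul_pow]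
    ring
  rw [h2] at h1
  have h3 : q * Real.exp θ + (1 - q) ≤ Real.exp (q * (θ + θ ^ 2)) := by
    have h4 : Real.exp θ ≤ 1 + θ + θ ^ 2 := by
      have h5 := Real.abs_exp_sub_one_sub_id_le (x := θ) (by rw [abs_of_nonneg hθ0]; exact hθ1)
      have h6 := le_abs_self (Real.exp θ - 1 - θ)
      linarith
    have h5 := Real.add_one_le_exp (q * (θ + θ ^ 2))
    nlinarith
  have h4 : (q * Real.exp θ + (1 - q)) ^ d ≤ Real.exp (μ * (θ + θ ^ 2)) := by
    have h5 : 0 ≤ q * Real.exp θ + (1 - q) := by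
      have := Real.exp_pos θ
      positivity
    refine (pow_le_pow_left₀ h5 h3 d).trans (le_of_eq ?_)
    rw [← Real.exp_nat_mul]
    congr 1
    rw [hμ]
    ring
  refine h1.trans ((mul_le_mul_of_nonneg_left h4 (Real.exp_pos _).le).trans ?_)
  rw [← Real.exp_add]
  apply Real.exp_le_exp.2
  have h5 : θ * (μ + l) ≤ θ * k := mul_le_mul_of_nonneg_left hk hθ0
  have h6 : μ * θ ^ 2 - θ * l = -(l ^ 2 / (4 * μ)) := by
    rw [hθ]
    field_simp
    ring
  nlinarith

section shift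

variable {q c l : ℝ} {d : ℕ}

theorem tb_gap (hq : 0 < q) (hc : 0 < c) (hqc : q ≤ 1 - c) (hl : 0 ≤ l)
    (hd : 0 < (d : ℝ) * q) (J : ℕ) (hJ : (J : ℝ) < d * q + l + 1) : ∀ m k : ℕ, k + m = J →
    (1 - (l + 1) / (c * (d * q))) * (tb q d k - tb q d J) ≤ tb q d (k + 1) - tb q d (J + 1) := by
  intro m
  induction m with
  | zero =>
    intro k hk
    have : k = J := by omega
    subst this
    simp
  | succ m ih =>
    intro k hk
    have h1 := ih (k + 1) (by omega)
    have hkJ : (k : ℝ) + 1 ≤ J := by exact_mod_cast (by omega : k + 1 ≤ J)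
    have h2 := pb_ratio hq hc hqc hl d k hd (by linarith)
    have h3 := tb_succ q d k
    have h4 := tb_succ q d (k + 1)
    have h5 : (1 - (l + 1) / (c * (d * q))) * (tb q d k - tb q d J) =
        (1 - (l + 1) / (c * (d * q))) * pb q d k +
        (1 - (l + 1) / (c * (d * q))) * (tb q d (k + 1) - tb q d J) := by
      rw [h3]
      ring
    rw [h5]
    linarith

/-- one step of the tail -/
theorem tb_one (hq : 0 < q) (hc : 0 < c) (hqc : q ≤ 1 - c) (hl : 0 ≤ l)
    (hd : 0 < (d : ℝ) * q) (hl2 : l ≤ 2 * (d * q)) (hη : (l + 1) / (c * (d * q)) ≤ 1) (k : ℕ) :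
    (1 - (l + 1) / (c * (d * q))) * tb q d k ≤
      tb q d (k + 1) + Real.exp (-(l ^ 2 / (4 * (d * q)))) := by
  have hq1 : q ≤ 1 := by linarith
  have hη0 : 0 ≤ (l + 1) / (c * (d * q)) := by positivity
  set η : ℝ := (l + 1) / (c * (d * q)) with hη'
  set ζ : ℝ := Real.exp (-(l ^ 2 / (4 * (d * q)))) with hζ
  rcases le_or_gt ((d : ℝ) * q + l) k with hk | hk
  · have h1 := chernoff hq hq1 d k hd hl hl2 hk
    have h2 := tb_nonneg hq.le hq1 d (k + 1)
    have h3 := tb_nonneg hq.le hq1 d k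
    nlinarith
  · set J : ℕ := ⌈(d : ℝ) * q + l⌉₊ with hJ
    have h1 : (d : ℝ) * q + l ≤ J := Nat.le_ceil _
    have h2 : (J : ℝ) < d * q + l + 1 := Nat.ceil_lt_add_one (by positivity)
    have hkJ : k ≤ J := by
      have : (k : ℝ) < J := by linarith
      exact_mod_cast this.le
    have h3 := tb_gap hq hc hqc hl hd J h2 (J - k) k (by omega)
    have h4 := chernoff hq hq1 d J hd hl hl2 h1
    have h5 := tb_nonneg hq.le hq1 d (J + 1)
    have h6 := tb_nonneg hq.le hq1 d J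
    rw [← hη'] at h3
    have h7 : (1 - η) * tb q d J ≤ tb q d J := by nlinarith
    nlinarith

theorem tb_shift (hq : 0 < q) (hc : 0 < c) (hqc : q ≤ 1 - c) (hl : 0 ≤ l)
    (hd : 0 < (d : ℝ) * q) (hl2 : l ≤ 2 * (d * q)) (w : ℕ)
    (hw1 : 1 ≤ w) (hw : (w : ℝ) * ((l + 1) / (c * (d * q))) ≤ 1 / 2) (k : ℕ) :
    tb q d k ≤ 2 * (tb q d (k + w) + w * Real.exp (-(l ^ 2 / (4 * (d * q))))) := by
  have hη0 : 0 ≤ (l + 1) / (c * (d * q)) := by positivity
  have hq1 : q ≤ 1 := by linarith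
  have hw1' : (1 : ℝ) ≤ w := by exact_mod_cast hw1
  have hη : (l + 1) / (c * (d * q)) ≤ 1 := by nlinarith
  have key : ∀ w : ℕ, (1 - (l + 1) / (c * (d * q))) ^ w * tb q d k ≤
      tb q d (k + w) + w * Real.exp (-(l ^ 2 / (4 * (d * q)))) := by
    intro w
    induction w with
    | zero => simp
    | succ w ih =>
      have h1 := tb_one hq hc hqc hl hd hl2 hη (k + w)
      have h2 : (1 - (l + 1) / (c * (d * q))) ^ (w + 1) * tb q d k =
          (1 - (l + 1) / (c * (d * q))) * ((1 - (l + 1) / (c * (d * q))) ^ w * tb q d k) := by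
        ring
      rw [h2]
      have h3 := mul_le_mul_of_nonneg_left ih (by linarith : 0 ≤ 1 - (l + 1) / (c * (d * q)))
      have h4 : 0 ≤ (w : ℝ) * Real.exp (-(l ^ 2 / (4 * (d * q)))) := by positivity
      push_cast
      rw [show k + (w + 1) = k + w + 1 by ring]
      nlinarith
  have h1 := key w
  have h2 : (1 : ℝ) / 2 ≤ (1 - (l + 1) / (c * (d * q))) ^ w := by
    have h3 := one_add_mul_le_pow (a := -((l + 1) / (c * (d * q)))) (by linarith) w
    have h4 : (1 + -((l + 1) / (c * (d * q)))) = 1 - (l + 1) / (c * (d * q)) := by ring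
    rw [h4] at h3
    linarith
  have h3 := tb_nonneg hq.le hq1 d k
  nlinarith

end shift

end Pool.Agent.Run7.h320.RG
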