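import Pool.Agent.Run7.h320.RG.B

/-!
# Degrees in the random graph
-/

set_option autoImplicit false

namespace Pool.Agent.Run7.h320.RG

open Finset

/-- pairs of different vertices -/
abbrev E (n : ℕ) : Type := {e : Sym2 (Fin n) // ¬ e.IsDiag}

/-- the graph of the pairs with `χ e = true` -/
def Gr {n : ℕ} (χ : E n → Bool) : SimpleGraph (Fin n) where
  Adj u v := ∃ h : ¬ (s(u, v)).IsDiag, χ ⟨s(u, v), h⟩ = true
  symm := ⟨by
    rintro u v ⟨h, hχ⟩
    have e : s(v, u) = s(u, v) := Sym2.eq_swap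
    refine ⟨by rw [e]; exact h, ?_⟩
    have e2 : (⟨s(v, u), by rw [e]; exact h⟩ : E n) = ⟨s(u, v), h⟩ := Subtype.ext e
    rw [e2]
    exact hχ⟩
  loopless := ⟨by
    rintro u ⟨h, -⟩
    exact h (by simp)⟩

/-- the pairs which contain `v` -/
noncomputable def star {n : ℕ} (v : Fin n) : Finset (E n) := by
  classical exact univ.filter (fun e : E n => v ∈ e.1)

theorem mem_star {n : ℕ} (v : Fin n) (e : E n) : e ∈ star v ↔ v ∈ e.1 := by
  unfold star
  simp

/-- the number of heads in `S` -/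
noncomputable def hd {n : ℕ} (χ : E n → Bool) (S : Finset (E n)) : ℕ :=
  (S.filter (fun e => χ e = true)).card

theorem deg_eq {n : ℕ} (χ : E n → Bool) (v : Fin n) :
    ((Gr χ).neighborSet v).ncard = hd χ (star v) := by
  classical
  have h1 : (Gr χ).neighborSet v = ((univ.filter (fun w => (Gr χ).Adj v w) : Finset (Fin n)) :
      Set (Fin n)) := by
    ext w
    simp
  rw [h1, Set.ncard_coe_finset]
  unfold hd
  refine Finset.card_bij (fun w hw => (⟨s(v, w), ((Finset.mem_filter.1 hw).2).1⟩ : E n)) ?_ ?_ ?_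
  · intro w hw
    obtain ⟨h, hχ⟩ := (Finset.mem_filter.1 hw).2
    rw [Finset.mem_filter, mem_star]
    exact ⟨Sym2.mem_mk_left v w, hχ⟩
  · intro w hw w' hw' h
    exact Sym2.congr_right.1 (Subtype.ext_iff.1 h)
  · rintro ⟨e, he⟩ h
    rw [Finset.mem_filter, mem_star] at h
    obtain ⟨⟨w, rfl⟩, hχ⟩ := h
    exact ⟨w, by rw [Finset.mem_filter]; exact ⟨Finset.mem_univ _, he, hχ⟩, rfl⟩

theorem card_star {n : ℕ} (v : Fin n) : (star v).card = n - 1 := by
  classical
  have h1 := deg_eq (fun _ : E n => true) v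
  unfold hd at h1
  rw [Finset.filter_true_of_mem (fun _ _ => rfl)] at h1
  rw [← h1]
  have h2 : (Gr (fun _ : E n => true)).neighborSet v =
      ((univ.erase v : Finset (Fin n)) : Set (Fin n)) := by
    ext w
    simp only [SimpleGraph.mem_neighborSet, Finset.coe_erase, Finset.coe_univ, Set.mem_sdiff,
      Set.mem_univ, true_and, Set.mem_singleton_iff]
    constructor
    · rintro ⟨h, -⟩ e
      exact h (by rw [e]; simp)
    · intro h
      exact ⟨by simpa using fun e => h e.symm, rfl⟩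
  rw [h2, Set.ncard_coe_finset, Finset.card_erase_of_mem (Finset.mem_univ v)]
  simp

/-- degree -/
noncomputable def dg {n : ℕ} (χ : E n → Bool) (v : Fin n) : ℕ := hd χ (star v)

theorem pr_deg {n : ℕ} (q : ℝ) (v : Fin n) (k : ℕ) :
    pr q (fun χ : E n → Bool => k ≤ dg χ v) = tb q (n - 1) k := by
  have h := bin_ge q (star v) k
  rw [card_star] at h
  exact h

theorem hd_loc {n : ℕ} (A : Finset (E n)) (k : ℕ) (χ χ' : E n → Bool)
    (h : ∀ i ∈ A, χ i = χ' i) (hp : k ≤ hd χ A) : k ≤ hd χ' A := by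
  unfold hd at hp ⊢
  have : A.filter (fun e => χ' e = true) = A.filter (fun e => χ e = true) :=
    Finset.filter_congr fun e he => by rw [h e he]
  rw [this]
  exact hp

theorem pr_pair {n : ℕ} {q : ℝ} (h0 : 0 ≤ q) (h1 : q ≤ 1) (u v : Fin n) (huv : u ≠ v) (k : ℕ) :
    pr q (fun χ : E n → Bool => k ≤ dg χ u ∧ k ≤ dg χ v) ≤ tb q (n - 1) (k - 1) ^ 2 := by
  classical
  have hne : ¬ (s(u, v)).IsDiag := by simpa using huv
  set e₀ : E n := ⟨s(u, v), hne⟩ with he₀
  have hdis : Disjoint ((star u).erase e₀) ((star v).erase e₀) := by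
    rw [Finset.disjoint_left]
    intro e he he'
    rw [Finset.mem_erase, mem_star] at he he'
    exact he.1 (Subtype.ext ((Sym2.mem_and_mem_iff huv).1 ⟨he.2, he'.2⟩))
  have key : ∀ (S : Finset (E n)) (χ : E n → Bool), hd χ S ≤ hd χ (S.erase e₀) + 1 := by
    intro S χ
    unfold hd
    rw [Finset.filter_erase]
    have := Finset.pred_card_le_card_erase (s := S.filter (fun e => χ e = true)) (a := e₀)
    omega
  have mono : ∀ (S : Finset (E n)) (χ : E n → Bool), hd χ (S.erase e₀) ≤ hd χ S := by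
    intro S χ
    unfold hd
    rw [Finset.filter_erase]
    exact Finset.card_le_card (Finset.erase_subset _ _)
  calc pr q (fun χ : E n → Bool => k ≤ dg χ u ∧ k ≤ dg χ v)
      ≤ pr q (fun χ : E n → Bool => k - 1 ≤ hd χ ((star u).erase e₀) ∧
          k - 1 ≤ hd χ ((star v).erase e₀)) := by
        refine pr_mono h0 h1 fun χ h => ?_
        have a1 := key (star u) χ
        have a2 := key (star v) χ
        unfold dg at h
        omega
    _ = pr q (fun χ : E n → Bool => k - 1 ≤ hd χ ((star u).erase e₀)) *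
          pr q (fun χ : E n → Bool => k - 1 ≤ hd χ ((star v).erase e₀)) :=
        indep q _ _ hdis _ _ (fun χ χ' h h' => hd_loc _ _ χ χ' h h')
          (fun χ χ' h h' => hd_loc _ _ χ χ' h h')
    _ ≤ tb q (n - 1) (k - 1) * tb q (n - 1) (k - 1) := by
        refine mul_le_mul ?_ ?_ (pr_nonneg h0 h1 _) (tb_nonneg h0 h1 _ _)
        · rw [← pr_deg q u (k - 1)]
          exact pr_mono h0 h1 fun χ h => h.trans (mono _ χ)
        · rw [← pr_deg q v (k - 1)]
          exact pr_mono h0 h1 fun χ h => h.trans (mono _ χ)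
    _ = _ := (sq _).symm

/-- no vertex of degree at least `t` -/
theorem pr_none {n : ℕ} {q : ℝ} (h0 : 0 ≤ q) (h1 : q ≤ 1) (t : ℕ) :
    pr q (fun χ : E n → Bool => ∀ v, ¬ t ≤ dg χ v) * (n * tb q (n - 1) t) ^ 2 ≤
      n * tb q (n - 1) t + (n * tb q (n - 1) (t - 1)) ^ 2 - (n * tb q (n - 1) t) ^ 2 := by
  classical
  have h := second_moment (ι := E n) h0 h1 (univ : Finset (Fin n)) (fun v χ => t ≤ dg χ v)
  have e1 : ∑ v : Fin n, pr q (fun χ : E n → Bool => t ≤ dg χ v) = n * tb q (n - 1) t := by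
    rw [Finset.sum_congr rfl fun v _ => pr_deg q v t]
    simp
  rw [e1] at h
  have e2 : pr q (fun χ : E n → Bool => ∀ v ∈ (univ : Finset (Fin n)), ¬ t ≤ dg χ v) =
      pr q (fun χ : E n → Bool => ∀ v, ¬ t ≤ dg χ v) := by
    refine pr_congr q fun χ => ?_
    simp
  rw [e2] at h
  have hT := tb_nonneg h0 h1 (n - 1) t
  have e3 : ∑ u : Fin n, ∑ v : Fin n, pr q (fun χ : E n → Bool => t ≤ dg χ u ∧ t ≤ dg χ v) ≤
      n * tb q (n - 1) t + (n * tb q (n - 1) (t - 1)) ^ 2 := by
    have e4 : ∀ u : Fin n, ∑ v : Fin n, pr q (fun χ : E n → Bool => t ≤ dg χ u ∧ t ≤ dg χ v) ≤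
        tb q (n - 1) t + n * tb q (n - 1) (t - 1) ^ 2 := by
      intro u
      rw [← Finset.add_sum_erase _ _ (Finset.mem_univ u)]
      refine add_le_add ?_ ?_
      · rw [← pr_deg q u t]
        exact pr_mono h0 h1 fun χ h => h.1
      · have e5 : ∀ v ∈ univ.erase u, pr q (fun χ : E n → Bool => t ≤ dg χ u ∧ t ≤ dg χ v) ≤
            tb q (n - 1) (t - 1) ^ 2 := fun v hv =>
          pr_pair h0 h1 u v (Finset.ne_of_mem_erase hv).symm t
        refine (Finset.sum_le_sum e5).trans ?_
        rw [Finset.sum_const, nsmul_eq_mul]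
        refine mul_le_mul_of_nonneg_right ?_ (sq_nonneg _)
        rw [Finset.card_erase_of_mem (Finset.mem_univ u)]
        simp
    refine (Finset.sum_le_sum fun u _ => e4 u).trans (le_of_eq ?_)
    rw [Finset.sum_const, nsmul_eq_mul]
    simp
    ring
  linarith

/-- few vertices of degree at least `k` -/
theorem pr_many {n : ℕ} {q : ℝ} (h0 : 0 ≤ q) (h1 : q ≤ 1) (k : ℕ) (x : ℝ) (hx : 0 < x) :
    pr q (fun χ : E n → Bool => x < ((univ.filter fun v : Fin n => k ≤ dg χ v).card : ℝ)) ≤
      n * tb q (n - 1) k / x := by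
  classical
  have h := markov (ι := E n) h0 h1 (univ : Finset (Fin n)) (fun v χ => k ≤ dg χ v)
    (fun χ => univ.filter fun v : Fin n => k ≤ dg χ v) (fun χ => Finset.subset_univ _)
    (fun χ v hv => (Finset.mem_filter.1 hv).2) x hx
  have e1 : ∑ v : Fin n, pr q (fun χ : E n → Bool => k ≤ dg χ v) = n * tb q (n - 1) k := by
    rw [Finset.sum_congr rfl fun v _ => pr_deg q v k]
    simp
  rw [e1] at h
  exact h

theorem pr_large {n : ℕ} {q : ℝ} (h0 : 0 ≤ q) (h1 : q ≤ 1) (k : ℕ) :
    pr q (fun χ : E n → Bool => ∃ v, k ≤ dg χ v) ≤ n * tb q (n - 1) k := by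
  classical
  have h := pr_exists_le (ι := E n) h0 h1 (univ : Finset (Fin n)) (fun v χ => k ≤ dg χ v)
  have e1 : ∑ v : Fin n, pr q (fun χ : E n → Bool => k ≤ dg χ v) = n * tb q (n - 1) k := by
    rw [Finset.sum_congr rfl fun v _ => pr_deg q v k]
    simp
  rw [e1] at h
  refine le_trans (le_of_eq ?_) h
  refine pr_congr q fun χ => ?_
  simp

/-! ### the space of graphs -/

/-- The probability of the property `P` for the random graph `G(n, q)`: the graph `G` has the weight
`q ^ m (1 - q) ^ (n (n - 1) / 2 - m)`, where `m` is the number of its edges. -/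
noncomputable def prob {n : ℕ} (q : ℝ) (P : SimpleGraph (Fin n) → Prop) : ℝ := by
  classical exact ∑ G : SimpleGraph (Fin n), if P G then
    q ^ G.edgeSet.ncard * (1 - q) ^ (n.choose 2 - G.edgeSet.ncard) else 0

theorem Gr_bij {n : ℕ} : Function.Bijective (Gr : (E n → Bool) → SimpleGraph (Fin n)) := by
  classical
  constructor
  · intro χ χ' h
    funext e
    obtain ⟨e, he⟩ := e
    induction e using Sym2.ind with
    | _ u v =>
      have h1 : (Gr χ).Adj u v ↔ (Gr χ').Adj u v := by rw [h]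
      have h2 : χ ⟨s(u, v), he⟩ = true ↔ χ' ⟨s(u, v), he⟩ = true := by
        constructor
        · intro h3
          obtain ⟨_, h4⟩ := h1.1 ⟨he, h3⟩
          exact h4
        · intro h3
          obtain ⟨_, h4⟩ := h1.2 ⟨he, h3⟩
          exact h4
      exact Bool.eq_iff_iff.2 h2
  · intro G
    refine ⟨fun e => decide (e.1 ∈ G.edgeSet), ?_⟩
    ext u v
    constructor
    · rintro ⟨h, h2⟩
      exact of_decide_eq_true h2
    · intro h
      exact ⟨by simpa using h.ne, decide_eq_true h⟩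

theorem wt_Gr {n : ℕ} (q : ℝ) (χ : E n → Bool) :
    wt q χ = q ^ (Gr χ).edgeSet.ncard * (1 - q) ^ (n.choose 2 - (Gr χ).edgeSet.ncard) := by
  classical
  have h1 : (Gr χ).edgeSet.ncard = (univ.filter (fun e : E n => χ e = true)).card := by
    have h2 : (Gr χ).edgeSet = (((univ.filter (fun e : E n => χ e = true)).image
        (fun e : E n => e.1) : Finset (Sym2 (Fin n))) : Set (Sym2 (Fin n))) := by
      ext e
      induction e using Sym2.ind with
      | _ u v =>
        simp only [Finset.coe_image, Set.mem_image, Finset.mem_coe, Finset.mem_filter,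
          Finset.mem_univ, true_and]
        constructor
        · rintro ⟨h, h3⟩
          exact ⟨⟨s(u, v), h⟩, h3, rfl⟩
        · rintro ⟨⟨e, he⟩, h3, rfl⟩
          exact ⟨he, h3⟩
    rw [h2, Set.ncard_coe_finset, Finset.card_image_of_injective _ Subtype.val_injective]
  have h3 : Fintype.card (E n) = n.choose 2 := by
    have := Sym2.card_subtype_not_diag (α := Fin n)
    rw [Fintype.card_fin] at this
    rw [← this]
  unfold wt
  rw [Finset.prod_ite, Finset.prod_const, Finset.prod_const, h1]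
  congr 2
  have h4 := Finset.card_filter_add_card_filter_not (s := (univ : Finset (E n)))
    (fun e : E n => χ e = true)
  rw [Finset.card_univ, h3] at h4
  omega

theorem prob_eq {n : ℕ} (q : ℝ) (P : SimpleGraph (Fin n) → Prop) :
    prob q P = pr q (fun χ : E n → Bool => P (Gr χ)) := by
  classical
  unfold prob
  rw [pr_def]
  refine (Function.Bijective.sum_comp Gr_bij (fun G : SimpleGraph (Fin n) => if P G then
    q ^ G.edgeSet.ncard * (1 - q) ^ (n.choose 2 - G.edgeSet.ncard) else 0)).symm.trans ?_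
  refine Finset.sum_congr rfl fun χ _ => ?_
  rw [← wt_Gr]

end Pool.Agent.Run7.h320.RG
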