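import Pool.Agent.Run7.h320.RG.C

/-!
# The largest degrees of the random graph
-/

set_option autoImplicit false

namespace Pool.Agent.Run7.h320.RG

open Finset

theorem level {n w : ℕ} {q c l M : ℝ} (hq : 0 < q) (hc : 0 < c) (hqc : q ≤ 1 - c) (hl : 0 ≤ l)
    (hd : 0 < ((n - 1 : ℕ) : ℝ) * q) (hl2 : l ≤ 2 * (((n - 1 : ℕ) : ℝ) * q)) (hw1 : 1 ≤ w)
    (hw : (w : ℝ) * ((l + 1) / (c * (((n - 1 : ℕ) : ℝ) * q))) ≤ 1 / 4)
    (hz1 : (n : ℝ) * (w * Real.exp (-(l ^ 2 / (4 * (((n - 1 : ℕ) : ℝ) * q))))) ≤ 1)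
    (hz2 : (n : ℝ) * Real.exp (-(l ^ 2 / (4 * (((n - 1 : ℕ) : ℝ) * q)))) ≤
      (l + 1) / (c * (((n - 1 : ℕ) : ℝ) * q)))
    (hM1 : 1 ≤ M) (hMn : M ≤ n) :
    ∃ t : ℕ, pr q (fun χ : E n → Bool => ∀ v, ¬ t ≤ dg χ v) ≤
        1 / M + 8 * ((l + 1) / (c * (((n - 1 : ℕ) : ℝ) * q))) ∧
      n * tb q (n - 1) (t - w) ≤ 10 * M := by
  classical
  have hq1 : q ≤ 1 := by linarith
  have hS1 := fun k => tb_one (k := k) hq hc hqc hl hd hl2
  have hS2 := fun w' h1 h2 k => tb_shift (k := k) hq hc hqc hl hd hl2 w' h1 h2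
  have hn0 : (0 : ℝ) < n := by linarith
  have hn1 : 1 ≤ n := by
    have : 0 < n := by exact_mod_cast hn0
    omega
  have hη0 : 0 < (l + 1) / (c * (((n - 1 : ℕ) : ℝ) * q)) := by positivity
  set η : ℝ := (l + 1) / (c * (((n - 1 : ℕ) : ℝ) * q)) with hη
  set ζ : ℝ := Real.exp (-(l ^ 2 / (4 * (((n - 1 : ℕ) : ℝ) * q)))) with hζ
  have hζ0 : 0 < ζ := Real.exp_pos _
  have hw1' : (1 : ℝ) ≤ w := by exact_mod_cast hw1
  have hη4 : η ≤ 1 / 4 := by nlinarith
  have hnζ : (n : ℝ) * ζ ≤ 1 := by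
    have : (n : ℝ) * ζ ≤ n * (w * ζ) := by
      refine mul_le_mul_of_nonneg_left ?_ hn0.le
      nlinarith
    linarith
  set t : ℕ := Nat.findGreatest (fun k => M ≤ n * tb q (n - 1) k) n with ht
  have hP0 : M ≤ n * tb q (n - 1) 0 := by
    rw [tb_zero, mul_one]
    exact hMn
  have h1 : M ≤ n * tb q (n - 1) t :=
    Nat.findGreatest_spec (P := fun k => M ≤ n * tb q (n - 1) k) (Nat.zero_le n) hP0
  have h2 : t ≤ n := Nat.findGreatest_le n
  have h3 : t < n := by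
    rcases lt_or_eq_of_le h2 with h | h
    · exact h
    · exfalso
      rw [h] at h1
      have : tb q (n - 1) n = 0 := by
        unfold tb
        rw [Finset.Icc_eq_empty (by omega), Finset.sum_empty]
      rw [this, mul_zero] at h1
      linarith
  have h4 : n * tb q (n - 1) (t + 1) < M := by
    have := Nat.findGreatest_is_greatest (P := fun k => M ≤ n * tb q (n - 1) k) (n := n)
      (k := t + 1) (Nat.lt_succ_self t) (by omega)
    exact not_le.1 this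
  set y : ℝ := n * tb q (n - 1) t with hy
  have h5 : y ≤ 4 * M := by
    have h6 := hS2 1 le_rfl (by push_cast; linarith) t
    push_cast at h6
    rw [one_mul] at h6
    have h7 : y ≤ n * (2 * (tb q (n - 1) (t + 1) + ζ)) := mul_le_mul_of_nonneg_left h6 hn0.le
    nlinarith
  refine ⟨t, ?_, ?_⟩
  · set x : ℝ := n * tb q (n - 1) (t - 1) with hx
    have hx0 : 0 ≤ x := mul_nonneg hn0.le (tb_nonneg hq.le hq1 _ _)
    have hy0 : 0 < y := by linarith
    have h6 : (1 - η) * x ≤ (1 + η) * y := by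
      have h7 : (1 - η) * x ≤ y + n * ζ := by
        rcases Nat.eq_zero_or_pos t with h | h
        · rw [hx, hy, h]
          have : 0 ≤ n * tb q (n - 1) 0 := mul_nonneg hn0.le (tb_nonneg hq.le hq1 _ _)
          have h8 : 0 ≤ n * ζ := by positivity
          simp only [Nat.zero_sub]
          nlinarith
        · have h8 := hS1 (t - 1) (by linarith)
          rw [show t - 1 + 1 = t by omega] at h8
          have h9 := mul_le_mul_of_nonneg_left h8 hn0.le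
          rw [hx, hy]
          linarith
      have h8 : (n : ℝ) * ζ ≤ η * y := by nlinarith
      linarith
    have h7 : x ^ 2 ≤ (1 + 8 * η) * y ^ 2 := by
      have h8 : ((1 - η) * x) ^ 2 ≤ ((1 + η) * y) ^ 2 :=
        pow_le_pow_left₀ (mul_nonneg (by linarith) hx0) h6 2
      have h9 : (1 + η) ^ 2 ≤ (1 + 8 * η) * (1 - η) ^ 2 := by nlinarith [mul_pos hη0 hη0]
      have h10 : 0 < (1 - η) ^ 2 := by
        have : 0 < 1 - η := by linarith
        positivity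
      have h11 : (1 - η) ^ 2 * x ^ 2 ≤ (1 - η) ^ 2 * ((1 + 8 * η) * y ^ 2) := by
        have h12 := mul_le_mul_of_nonneg_right h9 (sq_nonneg y)
        nlinarith
      exact le_of_mul_le_mul_left h11 h10
    have h8 := pr_none (n := n) hq.le hq1 t
    rw [← hy, ← hx] at h8
    have h9 : pr q (fun χ : E n → Bool => ∀ v, ¬ t ≤ dg χ v) * y ^ 2 ≤ (1 / y + 8 * η) * y ^ 2 := by
      have h10 : (1 / y + 8 * η) * y ^ 2 = y + 8 * η * y ^ 2 := by
        field_simp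
      rw [h10]
      linarith
    have h10 := le_of_mul_le_mul_right h9 (by positivity)
    have h11 : 1 / y ≤ 1 / M := one_div_le_one_div_of_le (by linarith) h1
    linarith
  · have h6 := hS2 w hw1 (by linarith) (t - w)
    have h7 : tb q (n - 1) (t - w + w) ≤ tb q (n - 1) t := tb_anti hq.le hq1 _ (by omega)
    have h8 : n * tb q (n - 1) (t - w) ≤ n * (2 * (tb q (n - 1) t + w * ζ)) :=
      mul_le_mul_of_nonneg_left (by linarith) hn0.le
    nlinarith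

/-- one vertex has a degree at least `t`, at most `B` vertices have a degree at least `t - w`, and
all degrees are below `R` -/
def Good {n : ℕ} (w : ℕ) (B R : ℝ) (χ : E n → Bool) : Prop :=
  ∃ t : ℕ, (∃ v, t ≤ dg χ v) ∧
    (∃ T : Finset (Fin n), (∀ v, v ∈ T ↔ t - w ≤ dg χ v) ∧ (T.card : ℝ) ≤ B) ∧
    ∀ v, (dg χ v : ℝ) < R

theorem main_event {n w : ℕ} {q c l M B : ℝ} (hq : 0 < q) (hc : 0 < c) (hqc : q ≤ 1 - c)
    (hl : 0 ≤ l)
    (hd : 0 < ((n - 1 : ℕ) : ℝ) * q) (hl2 : l ≤ 2 * (((n - 1 : ℕ) : ℝ) * q)) (hw1 : 1 ≤ w)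
    (hw : (w : ℝ) * ((l + 1) / (c * (((n - 1 : ℕ) : ℝ) * q))) ≤ 1 / 4)
    (hz1 : (n : ℝ) * (w * Real.exp (-(l ^ 2 / (4 * (((n - 1 : ℕ) : ℝ) * q))))) ≤ 1)
    (hz2 : (n : ℝ) * Real.exp (-(l ^ 2 / (4 * (((n - 1 : ℕ) : ℝ) * q)))) ≤
      (l + 1) / (c * (((n - 1 : ℕ) : ℝ) * q)))
    (hM1 : 1 ≤ M) (hMn : M ≤ n) (hB : 0 < B) :
    1 - (1 / M + 8 * ((l + 1) / (c * (((n - 1 : ℕ) : ℝ) * q))) + 10 * M / B +
        n * Real.exp (-(l ^ 2 / (4 * (((n - 1 : ℕ) : ℝ) * q))))) ≤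
      pr q (Good (n := n) w B (((n - 1 : ℕ) : ℝ) * q + l)) := by
  classical
  have hq1 : q ≤ 1 := by linarith
  obtain ⟨t, ht1, ht2⟩ := level hq hc hqc hl hd hl2 hw1 hw hz1 hz2 hM1 hMn
  set μ : ℝ := ((n - 1 : ℕ) : ℝ) * q with hμ
  set J : ℕ := ⌈μ + l⌉₊ with hJ
  have hn0 : (0 : ℝ) < n := by linarith
  have e1 : pr q (fun χ : E n → Bool => ∃ v, J ≤ dg χ v) ≤
      n * Real.exp (-(l ^ 2 / (4 * μ))) := by
    refine (pr_large hq.le hq1 J).trans (mul_le_mul_of_nonneg_left ?_ hn0.le)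
    exact chernoff hq hq1 (n - 1) J hd hl hl2 (Nat.le_ceil _)
  have e2 := (pr_many (n := n) hq.le hq1 (t - w) B hB).trans
    (div_le_div_of_nonneg_right ht2 hB.le)
  have e3 : pr q (fun χ : E n → Bool => ¬ Good w B (μ + l) χ) ≤
      pr q (fun χ : E n → Bool => (∀ v, ¬ t ≤ dg χ v) ∨
        (B < ((univ.filter fun v : Fin n => t - w ≤ dg χ v).card : ℝ)) ∨
        ∃ v, J ≤ dg χ v) := by
    refine pr_mono hq.le hq1 fun χ h => ?_
    by_contra hcon
    rw [not_or, not_or] at hcon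
    obtain ⟨c1, c2, c3⟩ := hcon
    apply h
    push Not at c1 c3
    refine ⟨t, c1, ⟨univ.filter fun v : Fin n => t - w ≤ dg χ v, fun v => by simp, not_lt.1 c2⟩,
      fun v => ?_⟩
    exact Nat.lt_ceil.1 (c3 v)
  have e4 := pr_not q (Good (n := n) w B (μ + l))
  have e5 := pr_or_le hq.le hq1 (fun χ : E n → Bool => ∀ v, ¬ t ≤ dg χ v) (fun χ =>
        (B < ((univ.filter fun v : Fin n => t - w ≤ dg χ v).card : ℝ)) ∨
        ∃ v, J ≤ dg χ v)
  have e6 := pr_or_le hq.le hq1 (fun χ : E n → Bool =>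
        B < ((univ.filter fun v : Fin n => t - w ≤ dg χ v).card : ℝ))
        (fun χ => ∃ v, J ≤ dg χ v)
  linarith

end Pool.Agent.Run7.h320.RG
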