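import Pool.Agent.Run7.h320.RG.D

/-!
# Choice of the parameters
-/

set_option autoImplicit false

namespace Pool.Agent.Run7.h320.RG

open Finset

theorem Good.mono {n w : ℕ} {B R R' : ℝ} (h : R ≤ R') {χ : E n → Bool} (hG : Good w B R χ) :
    Good w B R' χ := by
  obtain ⟨t, h1, h2, h3⟩ := hG
  exact ⟨t, h1, h2, fun v => (h3 v).trans_le h⟩

theorem params (c ε : ℝ) (hc : 0 < c) (hc1 : c ≤ 1) (hε : 0 < ε) (hε1 : ε ≤ 1) (W : ℝ)
    (hW : 16 / ε ≤ W) : ∃ κ : ℝ, 0 < κ ∧ ∃ n₀ : ℕ, ∀ n : ℕ, n₀ ≤ n → ∀ q P : ℝ, 0 < q →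
    q ≤ 1 - c → 1 ≤ P → P ^ 2 * Real.log n ≤ κ * (q * n) →
    1 - ε ≤ pr q (Good (n := n) ⌈W * P⌉₊ (⌈640 / ε ^ 2⌉₊ : ℕ) (3 * (1 + q * n))) := by
  have hW16 : 16 ≤ W := by
    refine le_trans ?_ hW
    rw [le_div_iff₀ hε]
    linarith
  have hW0 : 0 < W := by linarith
  refine ⟨c ^ 2 / (6272 * W ^ 2), by positivity, max 3 ⌈8 / ε⌉₊, ?_⟩
  intro n hn q P hq hqc hP hcond
  set κ : ℝ := c ^ 2 / (6272 * W ^ 2) with hκ
  have hκ0 : 0 < κ := by positivity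
  have hκ1 : κ * (6272 * W ^ 2) = c ^ 2 := by
    rw [hκ]
    field_simp
  have hκ2 : κ ≤ 1 / 18 := by
    have h1 : c ^ 2 ≤ 1 := by nlinarith
    have h2 : 256 ≤ W ^ 2 := by nlinarith
    have h3 : κ * (6272 * 256) ≤ κ * (6272 * W ^ 2) :=
      mul_le_mul_of_nonneg_left (by linarith) hκ0.le
    linarith
  have hn3 : (3 : ℝ) ≤ n := by exact_mod_cast (le_max_left 3 ⌈8 / ε⌉₊).trans hn
  have hn8 : 8 / ε ≤ n := (Nat.le_ceil _).trans (by exact_mod_cast (le_max_right 3 ⌈8 / ε⌉₊).trans hn)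
  have hn0 : (0 : ℝ) < n := by linarith
  have hnn : 3 ≤ n := (le_max_left 3 ⌈8 / ε⌉₊).trans hn
  set L : ℝ := Real.log n with hL
  have hL1 : 1 ≤ L := by
    rw [hL, Real.le_log_iff_exp_le hn0]
    linarith [Real.exp_one_lt_d9]
  set μ : ℝ := ((n - 1 : ℕ) : ℝ) * q with hμ
  have hd1 : ((n - 1 : ℕ) : ℝ) = n - 1 := by
    rw [Nat.cast_sub (by omega)]
    simp
  have hμx : q * n / 2 ≤ μ := by
    rw [hμ, hd1]
    nlinarith
  have hμx2 : μ ≤ q * n := by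
    rw [hμ, hd1]
    nlinarith
  have hP2 : 1 ≤ P ^ 2 := by nlinarith
  have hPL : P ^ 2 * L ≤ 2 * κ * μ := by nlinarith
  have hLμ : L ≤ 2 * κ * μ := by nlinarith
  have hμ0 : 0 < μ := by
    by_contra h
    push Not at h
    nlinarith
  have hLμ9 : 9 * L ≤ μ := by nlinarith
  have hμL1 : 1 ≤ μ * L := by nlinarith
  set s : ℝ := Real.sqrt (μ * L) with hs
  have hs2 : s ^ 2 = μ * L := Real.sq_sqrt (by positivity)
  have hs1 : 1 ≤ s := Real.one_le_sqrt.2 hμL1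
  set l : ℝ := 6 * s with hl
  have hl0 : 0 ≤ l := by positivity
  have hl2 : l ≤ 2 * μ := by
    have h1 : l ^ 2 ≤ (2 * μ) ^ 2 := by
      rw [hl]
      nlinarith
    exact (pow_le_pow_iff_left₀ hl0 (by positivity) two_ne_zero).1 h1
  have hexp : l ^ 2 / (4 * μ) = 9 * L := by
    rw [hl, mul_pow, hs2]
    field_simp
    ring
  have hζ : Real.exp (-(l ^ 2 / (4 * μ))) = 1 / (n : ℝ) ^ 9 := by
    rw [hexp, Real.exp_neg]
    have h1 : Real.exp (9 * L) = Real.exp L ^ 9 := by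
      rw [← Real.exp_nat_mul]
      norm_num
    rw [h1, hL, Real.exp_log hn0, one_div]
  set w : ℕ := ⌈W * P⌉₊ with hw
  have hWP : 16 ≤ W * P := by nlinarith
  have hw1 : W * P ≤ w := Nat.le_ceil _
  have hw2 : (w : ℝ) ≤ 2 * (W * P) := by
    have := Nat.ceil_lt_add_one (a := W * P) (by linarith)
    linarith
  have hcμ : 0 < c * μ := by positivity
  have hwη : (w : ℝ) * ((l + 1) / (c * μ)) ≤ 1 / 4 := by
    rw [← mul_div_assoc, div_le_iff₀ hcμ]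
    have h1 : 56 * (W * P) * s ≤ c * μ := by
      have h2 : (56 * (W * P) * s) ^ 2 ≤ (c * μ) ^ 2 := by
        have h3 : (56 * (W * P) * s) ^ 2 = 3136 * W ^ 2 * μ * (P ^ 2 * L) := by
          rw [mul_pow, mul_pow, mul_pow, hs2]
          ring
        have h4 : (c * μ) ^ 2 = κ * (6272 * W ^ 2) * μ ^ 2 := by rw [hκ1]; ring
        rw [h3, h4]
        have h5 : 3136 * W ^ 2 * μ * (P ^ 2 * L) ≤ 3136 * W ^ 2 * μ * (2 * κ * μ) :=
          mul_le_mul_of_nonneg_left hPL (by positivity)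
        linarith
      exact (pow_le_pow_iff_left₀ (by positivity) hcμ.le two_ne_zero).1 h2
    have h2 : l + 1 ≤ 7 * s := by
      rw [hl]
      linarith
    have h3 : (w : ℝ) * (l + 1) ≤ 2 * (W * P) * (7 * s) :=
      mul_le_mul hw2 h2 (by linarith) (by positivity)
    linarith
  have hηn : 1 / (n : ℝ) ≤ (l + 1) / (c * μ) := by
    rw [div_le_div_iff₀ hn0 hcμ]
    have h1 : c * μ ≤ n := by
      have h2 : c * μ ≤ 1 * μ := mul_le_mul_of_nonneg_right hc1 hμ0.le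
      have h3 : q * n ≤ 1 * n := mul_le_mul_of_nonneg_right (by linarith) hn0.le
      linarith
    nlinarith
  have hη0 : 0 < (l + 1) / (c * μ) := by positivity
  have hwn : (w : ℝ) ≤ n := by
    have h1 : (w : ℝ) * (1 / n) ≤ 1 / 4 := (mul_le_mul_of_nonneg_left hηn (Nat.cast_nonneg w)).trans hwη
    rw [mul_one_div, div_le_iff₀ hn0] at h1
    linarith
  have hpow : (n : ℝ) ^ 9 = n * n * n ^ 7 := by ring
  have hn7 : 1 ≤ (n : ℝ) ^ 7 := one_le_pow₀ (by linarith)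
  have hz1 : (n : ℝ) * (w * Real.exp (-(l ^ 2 / (4 * μ)))) ≤ 1 := by
    rw [hζ, mul_one_div, ← mul_div_assoc, div_le_one (by positivity), hpow]
    calc (n : ℝ) * w ≤ n * n := mul_le_mul_of_nonneg_left hwn hn0.le
      _ ≤ n * n * n ^ 7 := le_mul_of_one_le_right (by positivity) hn7
  have hz3 : (n : ℝ) * Real.exp (-(l ^ 2 / (4 * μ))) ≤ 1 / n := by
    rw [hζ, mul_one_div, div_le_div_iff₀ (by positivity) hn0, hpow, one_mul]
    exact le_mul_of_one_le_right (by positivity) hn7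
  have hz2 : (n : ℝ) * Real.exp (-(l ^ 2 / (4 * μ))) ≤ (l + 1) / (c * μ) := hz3.trans hηn
  have hB : 640 / ε ^ 2 ≤ ((⌈640 / ε ^ 2⌉₊ : ℕ) : ℝ) := Nat.le_ceil _
  set B : ℝ := ((⌈640 / ε ^ 2⌉₊ : ℕ) : ℝ) with hB'
  have hB0 : 0 < B := lt_of_lt_of_le (by positivity) hB
  have hM1 : (1 : ℝ) ≤ 8 / ε := by
    rw [le_div_iff₀ hε]
    linarith
  have hwpos : 1 ≤ w := by
    have : (1 : ℝ) ≤ w := by linarith
    exact_mod_cast this
  have main := main_event (n := n) (w := w) (M := 8 / ε) (B := B) hq hc hqc hl0 hμ0 hl2 hwpos hwη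
    hz1 hz2 hM1 hn8 hB0
  have e1 : 1 / (8 / ε) = ε / 8 := by field_simp
  have e2 : 8 * ((l + 1) / (c * μ)) ≤ ε / 8 := by
    have h1 : W * ((l + 1) / (c * μ)) ≤ 1 / 4 := by
      refine le_trans (mul_le_mul_of_nonneg_right ?_ hη0.le) hwη
      refine le_trans ?_ hw1
      exact le_mul_of_one_le_right hW0.le hP
    have h2 : 16 / ε * ((l + 1) / (c * μ)) ≤ 1 / 4 :=
      (mul_le_mul_of_nonneg_right hW hη0.le).trans h1
    rw [div_mul_eq_mul_div, div_le_iff₀ hε] at h2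
    linarith
  have e3 : 10 * (8 / ε) / B ≤ ε / 8 := by
    rw [div_le_iff₀ hB0]
    have h1 : ε / 8 * (640 / ε ^ 2) ≤ ε / 8 * B := mul_le_mul_of_nonneg_left hB (by positivity)
    have h2 : ε / 8 * (640 / ε ^ 2) = 10 * (8 / ε) := by
      field_simp
      norm_num
    linarith
  have e4 : (n : ℝ) * Real.exp (-(l ^ 2 / (4 * μ))) ≤ ε / 8 := by
    refine hz3.trans ?_
    rw [div_le_div_iff₀ hn0 (by norm_num)]
    rw [div_le_iff₀ hε] at hn8
    linarith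
  rw [← hμ] at main
  have e5 : 1 - ε ≤ pr q (Good (n := n) w B (μ + l)) := by
    rw [e1] at main
    linarith
  refine e5.trans (pr_mono hq.le (by linarith) fun χ h => h.mono ?_)
  nlinarith

end Pool.Agent.Run7.h320.RG
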