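import Pool.Agent.Run7.h320.RG.F
import Pool.Agent.N577.DT.P

/-!
# Few vertices of nearly maximal degree
-/

set_option autoImplicit false

namespace Pool.Agent.Run7.h320.RG

open Finset Pool.Agent.H162R2.Sparse Pool.Agent.N577.DT

/-- `TotalLabeling G p l`: the graph `G` has a `(p,1)`-total labelling of span `l`, that is, labels
`0, …, l` for the vertices (`fV`) and the edges (`fE`) such that adjacent vertices get different
labels, edges sharing an endpoint get different labels, and the labels of a vertex and of an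
incident edge differ by at least `p`. -/
def TotalLabeling {V : Type} (G : SimpleGraph V) (p l : ℕ) : Prop :=
  ∃ (fV : V → ℕ) (fE : Sym2 V → ℕ),
    (∀ v, fV v ≤ l) ∧ (∀ e ∈ G.edgeSet, fE e ≤ l) ∧
    (∀ u v, G.Adj u v → fV u ≠ fV v) ∧
    (∀ u v w, G.Adj u v → G.Adj u w → v ≠ w → fE s(u, v) ≠ fE s(u, w)) ∧
    (∀ u v, G.Adj u v → (p : ℤ) ≤ |(fV u : ℤ) - (fE s(u, v) : ℤ)|)

theorem main_part (p : ℕ) (hp : 1 ≤ p) (V : Type) [Fintype V] (G : SimpleGraph V) (D : ℕ)
    (T : Finset V) (a : ℝ) (b : ℕ) (ha : 34 * a * (1 + Real.log D) ≤ D) (hap : 4 * p * a ≤ D)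
    (hdeg : ∀ v, (G.neighborSet v).ncard ≤ D)
    (hdens : ∀ X : Finset V,
      ({e : V × V | e.1 ∈ X ∧ e.2 ∈ X ∧ G.Adj e.1 e.2 ∧ (e.1 ∈ T ∨ e.2 ∈ T)}.ncard : ℝ) ≤
        a * X.card)
    (hfew : ∀ v ∉ T, {w : V | w ∈ T ∧ G.Adj v w}.ncard ≤ b)
    (hgap : ∀ v ∉ T, ({w : V | w ∉ T ∧ G.Adj v w}.ncard : ℝ) ≤
      D - 3300 * (b + 2) * (p + Real.log D)) :
    TotalLabeling G p (D + 2 * p - 2) := by
  classical
  obtain ⟨f, g, e1, e2, e3, e4, e5, e6⟩ := mainPW p hp G T D a b ha hap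
    (fun v => by rw [dg_eq_ncard]; exact hdeg v)
    (by
      intro X
      refine le_trans (le_of_eq ?_) (hdens X)
      rw [← Set.ncard_coe_finset]
      congr 2
      ext e
      simp only [Set.mem_ofPred_eq, Finset.coe_filter, mem_pr,
        Pool.Agent.H162R2.AG.A_meetX_adj]
      tauto)
    (by
      intro v hv
      refine le_trans (le_of_eq ?_) (hfew v hv)
      rw [← Set.ncard_coe_finset]
      congr 2
      ext w
      simp [mem_nb, and_comm])
    (by
      intro v hv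
      refine le_trans (le_of_eq ?_) (hgap v hv)
      rw [← Set.ncard_coe_finset]
      congr 2
      ext w
      simp [mem_nb, and_comm])
  have hsymf : ∀ x y : V, (if G.Adj x y then f x y else 0) = (if G.Adj y x then f y x else 0) := by
    intro x y
    by_cases h : G.Adj x y
    · rw [if_pos h, if_pos h.symm, e1 x y h]
    · rw [if_neg h, if_neg (fun h' => h h'.symm)]
  refine ⟨g, Sym2.lift ⟨fun x y => if G.Adj x y then f x y else 0, hsymf⟩, ?_, ?_, e5, ?_, ?_⟩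
  · intro v
    have := Finset.mem_range.1 (e4 v)
    omega
  · intro e he
    induction e using Sym2.ind with
    | _ x y =>
      have hxy : G.Adj x y := he
      simp only [Sym2.lift_mk]
      rw [if_pos hxy]
      have := Finset.mem_range.1 (e2 x y hxy)
      omega
  · intro u v w huv huw hvw
    simp only [Sym2.lift_mk]
    rw [if_pos huv, if_pos huw]
    exact e3 u v w huv huw hvw
  · intro u v huv
    simp only [Sym2.lift_mk]
    rw [if_pos huv]
    have := e6 u v huv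
    unfold Far at this
    rw [le_abs]
    rcases this with h | h
    · right
      omega
    · left
      omega

/-- the deterministic consequences of the good event -/
theorem good_few {n w p B : ℕ} {R : ℝ} (hp : 1 ≤ p) (hB : B < n) (hR : 1 ≤ R)
    (hw : 3300 * ((B : ℝ) + 2) * (p + Real.log R) ≤ w) (χ : E n → Bool) (h : Good w B R χ) :
    ∃ (D : ℕ) (T : Finset (Fin n)), (∀ v, ((Gr χ).neighborSet v).ncard ≤ D) ∧
      (∃ v, ((Gr χ).neighborSet v).ncard = D) ∧ 1 ≤ D ∧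
      34 * (2 * (B : ℝ)) * (1 + Real.log D) ≤ D ∧ 4 * p * (2 * (B : ℝ)) ≤ D ∧
      (∀ X : Finset (Fin n),
        ({e : Fin n × Fin n | e.1 ∈ X ∧ e.2 ∈ X ∧ (Gr χ).Adj e.1 e.2 ∧ (e.1 ∈ T ∨ e.2 ∈ T)}.ncard :
          ℝ) ≤ 2 * B * X.card) ∧
      (∀ v, {u : Fin n | u ∈ T ∧ (Gr χ).Adj v u}.ncard ≤ B) ∧
      (∀ v ∉ T, ({u : Fin n | u ∉ T ∧ (Gr χ).Adj v u}.ncard : ℝ) ≤
        D - 3300 * (B + 2) * (p + Real.log D)) := by
  classical
  obtain ⟨t, ⟨v₁, hv₁⟩, ⟨T, hT, hTB⟩, hRd⟩ := h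
  have hTB' : T.card ≤ B := by exact_mod_cast hTB
  have hdg : ∀ v, ((Gr χ).neighborSet v).ncard = dg χ v := fun v => deg_eq χ v
  have hn : 0 < n := by omega
  have : Nonempty (Fin n) := ⟨⟨0, hn⟩⟩
  obtain ⟨v₂, hv₂⟩ := Finite.exists_max (fun v : Fin n => dg χ v)
  have hex : ∃ v₀, v₀ ∉ T := by
    by_contra hcon
    push Not at hcon
    have h1 : (univ : Finset (Fin n)) ⊆ T := fun v _ => hcon v
    have h2 := Finset.card_le_card h1
    rw [Finset.card_univ, Fintype.card_fin] at h2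
    omega
  have hlow : ∀ v, v ∉ T → dg χ v + w < t := by
    intro v hv
    rw [hT v] at hv
    omega
  obtain ⟨v₀, hv₀⟩ := hex
  have hwt : w < t := by
    have := hlow v₀ hv₀
    omega
  have htD : t ≤ dg χ v₂ := hv₁.trans (hv₂ v₁)
  set D : ℕ := dg χ v₂ with hD
  have hwD : w < D := by omega
  have hD1 : (1 : ℝ) ≤ D := by exact_mod_cast (by omega : 1 ≤ D)
  have hDR : (D : ℝ) ≤ R := (hRd v₂).le
  have hlog : Real.log D ≤ Real.log R := Real.log_le_log (by linarith) hDR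
  have hlog0 : 0 ≤ Real.log D := Real.log_nonneg hD1
  have hp1 : (1 : ℝ) ≤ p := by exact_mod_cast hp
  have hwDr : (w : ℝ) ≤ D := by exact_mod_cast hwD.le
  have hB0 : (0 : ℝ) ≤ B := Nat.cast_nonneg B
  have hlogR : 0 ≤ Real.log R := Real.log_nonneg hR
  refine ⟨D, T, fun v => by rw [hdg]; exact hv₂ v, ⟨v₂, by rw [hdg]⟩, by omega, ?_, ?_, ?_, ?_, ?_⟩
  · have h1 : (B : ℝ) * (1 + Real.log D) ≤ B * (p + Real.log R) :=
      mul_le_mul_of_nonneg_left (by linarith) hB0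
    nlinarith
  · have h1 : (B : ℝ) * p ≤ B * (p + Real.log R) :=
      mul_le_mul_of_nonneg_left (by linarith) hB0
    nlinarith
  · intro X
    have h1 : {e : Fin n × Fin n | e.1 ∈ X ∧ e.2 ∈ X ∧ (Gr χ).Adj e.1 e.2 ∧ (e.1 ∈ T ∨ e.2 ∈ T)} ⊆
        (((T ×ˢ X) ∪ (X ×ˢ T) : Finset (Fin n × Fin n)) : Set (Fin n × Fin n)) := by
      rintro e ⟨h1, h2, -, h3 | h3⟩
      · rw [Finset.mem_coe, Finset.mem_union, Finset.mem_product, Finset.mem_product]
        exact Or.inl ⟨h3, h2⟩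
      · rw [Finset.mem_coe, Finset.mem_union, Finset.mem_product, Finset.mem_product]
        exact Or.inr ⟨h1, h3⟩
    have h2 := Set.ncard_le_ncard h1 (Finset.finite_toSet _)
    rw [Set.ncard_coe_finset] at h2
    have h3 := Finset.card_union_le (T ×ˢ X) (X ×ˢ T)
    rw [Finset.card_product, Finset.card_product] at h3
    have h4 : T.card * X.card + X.card * T.card ≤ 2 * B * X.card := by
      have h5 : T.card * X.card ≤ B * X.card := Nat.mul_le_mul_right _ hTB'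
      nlinarith
    exact_mod_cast h2.trans (h3.trans h4)
  · intro v
    have h1 : {u : Fin n | u ∈ T ∧ (Gr χ).Adj v u} ⊆ (T : Set (Fin n)) := fun u hu => hu.1
    have h2 := Set.ncard_le_ncard h1 (Finset.finite_toSet _)
    rw [Set.ncard_coe_finset] at h2
    exact h2.trans hTB'
  · intro v hv
    have h1 : {u : Fin n | u ∉ T ∧ (Gr χ).Adj v u}.ncard ≤ ((Gr χ).neighborSet v).ncard :=
      Set.ncard_le_ncard (fun u hu => hu.2) (Set.toFinite _)
    rw [hdg] at h1
    have h2 := hlow v hv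
    have h3 : {u : Fin n | u ∉ T ∧ (Gr χ).Adj v u}.ncard + w ≤ D := by omega
    have h4 : ({u : Fin n | u ∉ T ∧ (Gr χ).Adj v u}.ncard : ℝ) + w ≤ D := by exact_mod_cast h3
    have h5 : 3300 * ((B : ℝ) + 2) * (p + Real.log D) ≤ 3300 * (B + 2) * (p + Real.log R) :=
      mul_le_mul_of_nonneg_left (by linarith) (by positivity)
    linarith

/-- the good event for a property of the graph which follows from few large degrees -/
theorem whp (c ε : ℝ) (hc : 0 < c) (hε : 0 < ε) : ∃ κ : ℝ, 0 < κ ∧ ∃ n₀ : ℕ, ∀ n : ℕ, n₀ ≤ n →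
    ∀ (q : ℝ) (p : ℕ), 0 < q → q ≤ 1 - c → 1 ≤ p →
    (p + Real.log (1 + q * n)) ^ 2 * Real.log n ≤ κ * (q * n) →
    ∀ Q : SimpleGraph (Fin n) → Prop,
    (∀ (G : SimpleGraph (Fin n)) (D B : ℕ) (T : Finset (Fin n)),
      (∀ v, (G.neighborSet v).ncard ≤ D) →
      (∃ v, (G.neighborSet v).ncard = D) → 1 ≤ D →
      34 * (2 * (B : ℝ)) * (1 + Real.log D) ≤ D → 4 * p * (2 * (B : ℝ)) ≤ D →
      (∀ X : Finset (Fin n),
        ({e : Fin n × Fin n | e.1 ∈ X ∧ e.2 ∈ X ∧ G.Adj e.1 e.2 ∧ (e.1 ∈ T ∨ e.2 ∈ T)}.ncard :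
          ℝ) ≤ 2 * B * X.card) →
      (∀ v, {u : Fin n | u ∈ T ∧ G.Adj v u}.ncard ≤ B) →
      (∀ v ∉ T, ({u : Fin n | u ∉ T ∧ G.Adj v u}.ncard : ℝ) ≤
        D - 3300 * (B + 2) * (p + Real.log D)) → Q G) →
    1 - ε ≤ prob q Q := by
  set ε' : ℝ := min ε 1 with hε'
  have hε'0 : 0 < ε' := lt_min hε one_pos
  set B : ℕ := ⌈640 / ε' ^ 2⌉₊ with hB
  set W : ℝ := max (16 / ε') (9900 * ((B : ℝ) + 2)) with hW
  obtain ⟨κ, hκ, n₁, h⟩ := params (min c 1) ε' (lt_min hc one_pos) (min_le_right _ _) hε'0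
    (min_le_right _ _) W (le_max_left _ _)
  refine ⟨κ, hκ, max n₁ (B + 1), ?_⟩
  intro n hn q p hq hqc hp hcond Q hQ
  have hn1 : n₁ ≤ n := (le_max_left _ _).trans hn
  have hnB : B < n := (le_max_right n₁ (B + 1)).trans hn
  have hp1 : (1 : ℝ) ≤ p := by exact_mod_cast hp
  have hqn : 0 ≤ q * n := by positivity
  have hlog0 : 0 ≤ Real.log (1 + q * n) := Real.log_nonneg (by linarith)
  have h1 := h n hn1 q (p + Real.log (1 + q * n)) hq
    (by have := min_le_left c 1; linarith) (by linarith) hcond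
  have hq1 : q ≤ 1 := by linarith
  rw [prob_eq]
  refine le_trans (by have := min_le_left ε 1; linarith) (h1.trans (pr_mono hq.le hq1 fun χ hχ => ?_))
  have hR : (1 : ℝ) ≤ 3 * (1 + q * n) := by linarith
  have hw : 3300 * ((B : ℝ) + 2) * (p + Real.log (3 * (1 + q * n))) ≤
      (⌈W * (p + Real.log (1 + q * n))⌉₊ : ℕ) := by
    refine le_trans ?_ (Nat.le_ceil _)
    have h2 : Real.log (3 * (1 + q * n)) ≤ 2 * p + Real.log (1 + q * n) := by
      rw [Real.log_mul (by norm_num) (by linarith)]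
      have h3 : Real.log 3 ≤ 2 := by
        rw [Real.log_le_iff_le_exp (by norm_num)]
        have := Real.add_one_le_exp (2 : ℝ)
        linarith
      linarith
    have h4 : 9900 * ((B : ℝ) + 2) ≤ W := le_max_right _ _
    have hB0 : (0 : ℝ) ≤ B := Nat.cast_nonneg B
    calc 3300 * ((B : ℝ) + 2) * (p + Real.log (3 * (1 + q * n)))
        ≤ 3300 * ((B : ℝ) + 2) * (3 * (p + Real.log (1 + q * n))) :=
          mul_le_mul_of_nonneg_left (by linarith) (by positivity)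
      _ = 9900 * ((B : ℝ) + 2) * (p + Real.log (1 + q * n)) := by ring
      _ ≤ W * (p + Real.log (1 + q * n)) :=
          mul_le_mul_of_nonneg_right h4 (by linarith)
  obtain ⟨D, T, g1, g2, g3, g4, g5, g6, g7, g8⟩ := good_few hp hnB hR hw χ hχ
  exact hQ (Gr χ) D B T g1 g2 g3 g4 g5 g6 g7 g8

end Pool.Agent.Run7.h320.RG
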