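import Pool.Agent.Run7.h320.RG.C

/-!
# Large vertices of very sparse random graphs
-/

set_option autoImplicit false

namespace Pool.Agent.Run7.h320.RG

open Finset

theorem pb_le_tb {q : ℝ} (h0 : 0 ≤ q) (h1 : q ≤ 1) (d k : ℕ) : pb q d k ≤ tb q d k := by
  rw [tb_succ]
  linarith [tb_nonneg h0 h1 d (k + 1)]

/-- one step of the tail -/
theorem tb_ratio {q : ℝ} (h0 : 0 < q) (h1 : q ≤ 1) (d k : ℕ) (hk : 2 * (k + 1) ≤ d) :
    tb q d k ≤ (1 + 2 * ((k : ℝ) + 1) / (d * q)) * tb q d (k + 1) := by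
  have hd0 : (0 : ℝ) < d := by exact_mod_cast (by omega : 0 < d)
  have hs := pb_step q d k
  have hc : (2 : ℝ) * ((d - k : ℕ) : ℝ) ≥ d := by
    have : d ≤ 2 * (d - k) := by omega
    exact_mod_cast this
  have hp := pb_nonneg h0.le h1 d k
  have hp1 := pb_nonneg h0.le h1 d (k + 1)
  have hle := pb_le_tb h0.le h1 d (k + 1)
  have hdq : 0 < (d : ℝ) * q := by positivity
  have h2 : (d : ℝ) * q * pb q d k ≤ 2 * ((k : ℝ) + 1) * pb q d (k + 1) := by
    have h3 : (d : ℝ) * (q * pb q d k) ≤ 2 * ((d - k : ℕ) : ℝ) * (q * pb q d k) :=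
      mul_le_mul_of_nonneg_right hc (by positivity)
    have h4 : pb q d (k + 1) * (((k : ℝ) + 1) * (1 - q)) ≤ pb q d (k + 1) * ((k : ℝ) + 1) := by
      apply mul_le_mul_of_nonneg_left _ hp1
      have : (0 : ℝ) ≤ k := Nat.cast_nonneg k
      nlinarith
    nlinarith
  have h3 : pb q d k ≤ 2 * ((k : ℝ) + 1) / (d * q) * pb q d (k + 1) := by
    rw [div_mul_eq_mul_div, le_div_iff₀ hdq]
    linarith
  have h4 : 0 ≤ 2 * ((k : ℝ) + 1) / (d * q) := by positivity
  rw [tb_succ]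
  nlinarith

theorem tb_pow {q ρ : ℝ} (h0 : 0 < q) (h1 : q ≤ 1) (d M : ℕ) (hM : 2 * M ≤ d)
    (hρ : ρ = 1 + 2 * (M : ℝ) / (d * q)) : ∀ w k : ℕ, k + w ≤ M →
    tb q d k ≤ ρ ^ w * tb q d (k + w) := by
  have hρ0 : 0 ≤ ρ := by
    rw [hρ]
    positivity
  intro w
  induction w with
  | zero =>
    intro k _
    simp
  | succ w ih =>
    intro k hk
    have h2 := tb_ratio h0 h1 d k (by omega)
    have h3 := ih (k + 1) (by omega)
    have h4 : 1 + 2 * ((k : ℝ) + 1) / (d * q) ≤ ρ := by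
      rw [hρ]
      have h5 : (k : ℝ) + 1 ≤ M := by exact_mod_cast (by omega : k + 1 ≤ M)
      have h6 : 2 * ((k : ℝ) + 1) / (d * q) ≤ 2 * (M : ℝ) / (d * q) := by
        apply div_le_div_of_nonneg_right _ (by positivity)
        linarith
      linarith
    have h5 := tb_nonneg h0.le h1 d (k + 1)
    calc tb q d k ≤ ρ * tb q d (k + 1) := h2.trans (mul_le_mul_of_nonneg_right h4 h5)
      _ ≤ ρ * (ρ ^ w * tb q d (k + 1 + w)) := mul_le_mul_of_nonneg_left h3 hρ0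
      _ = _ := by
        rw [pow_succ, show k + (w + 1) = k + 1 + w by ring]
        ring

/-- large deviations -/
theorem chernoff_big {q s : ℝ} (h0 : 0 ≤ q) (h1 : q ≤ 1) (hs : 1 ≤ s) (d k : ℕ) :
    tb q d k * s ^ k ≤ Real.exp (d * q * (s - 1)) := by
  have h2 : tb q d k * s ^ k ≤ ∑ j ∈ range (d + 1), pb q d j * s ^ j := by
    unfold tb
    rw [Finset.sum_mul]
    have h3 : ∀ j ∈ Icc k d, pb q d j * s ^ k ≤ pb q d j * s ^ j := fun j hj =>
      mul_le_mul_of_nonneg_left (pow_le_pow_right₀ hs (Finset.mem_Icc.1 hj).1)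
        (pb_nonneg h0 h1 d j)
    refine (Finset.sum_le_sum h3).trans ?_
    refine Finset.sum_le_sum_of_subset_of_nonneg ?_ ?_
    · intro j hj
      rw [Finset.mem_Icc] at hj
      rw [Finset.mem_range]
      omega
    · intro j _ _
      exact mul_nonneg (pb_nonneg h0 h1 d j) (by positivity)
  have h3 : ∑ j ∈ range (d + 1), pb q d j * s ^ j = (q * s + (1 - q)) ^ d := by
    rw [add_pow]
    refine Finset.sum_congr rfl fun j _ => ?_
    unfold pb
    rw [mul_pow]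
    ring
  rw [h3] at h2
  refine h2.trans ?_
  have h4 : q * s + (1 - q) ≤ Real.exp (q * (s - 1)) := by
    have := Real.add_one_le_exp (q * (s - 1))
    linarith
  have h5 : 0 ≤ q * s + (1 - q) := by nlinarith
  refine (pow_le_pow_left₀ h5 h4 d).trans (le_of_eq ?_)
  rw [← Real.exp_nat_mul]
  congr 1
  ring

/-- two vertices of large degree and given edges -/
theorem pr_pairF {n : ℕ} {q : ℝ} (h0 : 0 ≤ q) (h1 : q ≤ 1) (u v : Fin n) (huv : u ≠ v) (k a : ℕ)
    (F F' : Finset (E n)) (hF : F ⊆ F') (h0F : (⟨s(u, v), by simpa using huv⟩ : E n) ∈ F')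
    (ha : F'.card ≤ a) :
    pr q (fun χ : E n → Bool => (∀ e ∈ F, χ e = true) ∧ k ≤ dg χ u ∧ k ≤ dg χ v) ≤
      pr q (fun χ : E n → Bool => ∀ e ∈ F, χ e = true) * tb q (n - 1) (k - a) ^ 2 := by
  classical
  have hdis : Disjoint (star u \ F') (star v \ F') := by
    rw [Finset.disjoint_left]
    intro e he he'
    rw [Finset.mem_sdiff, mem_star] at he he'
    apply he.2
    have : e = (⟨s(u, v), by simpa using huv⟩ : E n) :=
      Subtype.ext ((Sym2.mem_and_mem_iff huv).1 ⟨he.1, he'.1⟩)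
    rw [this]
    exact h0F
  have key : ∀ (S : Finset (E n)) (χ : E n → Bool), hd χ S ≤ hd χ (S \ F') + a := by
    intro S χ
    unfold hd
    have h2 : S.filter (fun e => χ e = true) ⊆ (S \ F').filter (fun e => χ e = true) ∪ F' := by
      intro e he
      rw [Finset.mem_filter] at he
      by_cases h3 : e ∈ F'
      · exact Finset.mem_union_right _ h3
      · exact Finset.mem_union_left _ (Finset.mem_filter.2 ⟨Finset.mem_sdiff.2 ⟨he.1, h3⟩, he.2⟩)
    have h3 := (Finset.card_le_card h2).trans (Finset.card_union_le _ _)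
    omega
  have mono : ∀ (S : Finset (E n)) (χ : E n → Bool), hd χ (S \ F') ≤ hd χ S := by
    intro S χ
    unfold hd
    exact Finset.card_le_card (Finset.filter_subset_filter _ Finset.sdiff_subset)
  calc pr q (fun χ : E n → Bool => (∀ e ∈ F, χ e = true) ∧ k ≤ dg χ u ∧ k ≤ dg χ v)
      ≤ pr q (fun χ : E n → Bool => (∀ e ∈ F, χ e = true) ∧ (k - a ≤ hd χ (star u \ F') ∧
          k - a ≤ hd χ (star v \ F'))) := by
        refine pr_mono h0 h1 fun χ h => ⟨h.1, ?_⟩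
        have a1 := key (star u) χ
        have a2 := key (star v) χ
        have h2 := h.2
        unfold dg at h2
        omega
    _ = pr q (fun χ : E n → Bool => ∀ e ∈ F, χ e = true) *
          pr q (fun χ : E n → Bool => k - a ≤ hd χ (star u \ F') ∧
            k - a ≤ hd χ (star v \ F')) := by
        refine indep q F ((star u \ F') ∪ (star v \ F')) ?_ _ _ ?_ ?_
        · rw [Finset.disjoint_left]
          intro e he he'
          rw [Finset.mem_union, Finset.mem_sdiff, Finset.mem_sdiff] at he'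
          rcases he' with h | h
          · exact h.2 (hF he)
          · exact h.2 (hF he)
        · intro χ χ' h h2 e he
          rw [← h e he]
          exact h2 e he
        · intro χ χ' h h2
          exact ⟨hd_loc _ _ χ χ' (fun e he => h e (Finset.mem_union_left _ he)) h2.1,
            hd_loc _ _ χ χ' (fun e he => h e (Finset.mem_union_right _ he)) h2.2⟩
    _ = pr q (fun χ : E n → Bool => ∀ e ∈ F, χ e = true) *
          (pr q (fun χ : E n → Bool => k - a ≤ hd χ (star u \ F')) *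
            pr q (fun χ : E n → Bool => k - a ≤ hd χ (star v \ F'))) := by
        rw [indep q _ _ hdis _ _ (fun χ χ' h h' => hd_loc _ _ χ χ' h h')
          (fun χ χ' h h' => hd_loc _ _ χ χ' h h')]
    _ ≤ pr q (fun χ : E n → Bool => ∀ e ∈ F, χ e = true) *
          (tb q (n - 1) (k - a) * tb q (n - 1) (k - a)) := by
        refine mul_le_mul_of_nonneg_left ?_ (pr_nonneg h0 h1 _)
        refine mul_le_mul ?_ ?_ (pr_nonneg h0 h1 _) (tb_nonneg h0 h1 _ _)
        · rw [← pr_deg q u (k - a)]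
          exact pr_mono h0 h1 fun χ h => h.trans (mono _ χ)
        · rw [← pr_deg q v (k - a)]
          exact pr_mono h0 h1 fun χ h => h.trans (mono _ χ)
    _ = _ := by rw [sq]

theorem pr_true {n : ℕ} (q : ℝ) : pr q (fun _ : E n → Bool => True) = 1 := by
  classical
  rw [pr_def]
  simp only [if_true]
  exact sum_wt q

/-- two adjacent vertices of large degree -/
theorem pr_adj {n : ℕ} {q : ℝ} (h0 : 0 ≤ q) (h1 : q ≤ 1) (u v : Fin n) (huv : u ≠ v) (k : ℕ) :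
    pr q (fun χ : E n → Bool => (Gr χ).Adj u v ∧ k ≤ dg χ u ∧ k ≤ dg χ v) ≤
      q * tb q (n - 1) (k - 1) ^ 2 := by
  classical
  have hne : ¬ (s(u, v)).IsDiag := by simpa using huv
  have h2 := pr_pairF h0 h1 u v huv k 1 {⟨s(u, v), hne⟩} {⟨s(u, v), hne⟩}
    (Finset.Subset.refl _) (Finset.mem_singleton_self _) (by simp)
  have h3 : pr q (fun χ : E n → Bool => ∀ e ∈ ({⟨s(u, v), hne⟩} : Finset (E n)), χ e = true) =
      q :=
    (pr_congr q fun χ => by simp).trans (pr_coin q (⟨s(u, v), hne⟩ : E n))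
  rw [h3] at h2
  refine le_trans (pr_mono h0 h1 fun χ h => ?_) h2
  refine ⟨?_, h.2⟩
  intro e he
  rw [Finset.mem_singleton] at he
  rw [he]
  exact h.1.2

/-- two vertices of large degree with a common neighbour -/
theorem pr_cherry {n : ℕ} {q : ℝ} (h0 : 0 ≤ q) (h1 : q ≤ 1) (u v w : Fin n) (huv : u ≠ v)
    (huw : u ≠ w) (hvw : v ≠ w) (k : ℕ) :
    pr q (fun χ : E n → Bool => ((Gr χ).Adj u w ∧ (Gr χ).Adj v w) ∧ k ≤ dg χ u ∧ k ≤ dg χ v) ≤
      q ^ 2 * tb q (n - 1) (k - 3) ^ 2 := by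
  classical
  have hne : ¬ (s(u, v)).IsDiag := by simpa using huv
  have hne1 : ¬ (s(u, w)).IsDiag := by simpa using huw
  have hne2 : ¬ (s(v, w)).IsDiag := by simpa using hvw
  have h2 := pr_pairF h0 h1 u v huv k 3 {⟨s(u, w), hne1⟩, ⟨s(v, w), hne2⟩}
    {⟨s(u, v), hne⟩, ⟨s(u, w), hne1⟩, ⟨s(v, w), hne2⟩}
    (Finset.subset_insert _ _) (Finset.mem_insert_self _ _) Finset.card_le_three
  have h12 : (⟨s(u, w), hne1⟩ : E n) ≠ ⟨s(v, w), hne2⟩ := by
    intro h
    have h3 := Subtype.ext_iff.1 h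
    have h4 : u = v := Sym2.congr_left.1 h3
    exact huv h4
  have h3 : pr q (fun χ : E n → Bool =>
      ∀ e ∈ ({⟨s(u, w), hne1⟩, ⟨s(v, w), hne2⟩} : Finset (E n)), χ e = true) = q ^ 2 := by
    have h4 : pr q (fun χ : E n → Bool => χ ⟨s(u, w), hne1⟩ = true ∧ χ ⟨s(v, w), hne2⟩ = true) =
        q * q := by
      rw [indep q {⟨s(u, w), hne1⟩} {⟨s(v, w), hne2⟩} (by simpa using h12) _ _ ?_ ?_, pr_coin,
        pr_coin]
      · intro χ χ' h h5
        rw [← h _ (Finset.mem_singleton_self _)]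
        exact h5
      · intro χ χ' h h5
        rw [← h _ (Finset.mem_singleton_self _)]
        exact h5
    rw [sq, ← h4]
    exact pr_congr q fun χ => by simp
  rw [h3] at h2
  refine le_trans (pr_mono h0 h1 fun χ h => ?_) h2
  refine ⟨?_, h.2⟩
  intro e he
  rw [Finset.mem_insert, Finset.mem_singleton] at he
  rcases he with he | he
  · rw [he]
    exact h.1.1.2
  · rw [he]
    exact h.1.2.2

/-- no vertex of degree at least `t` -/
theorem pr_none2 {n : ℕ} {q : ℝ} (h0 : 0 ≤ q) (h1 : q ≤ 1) (t : ℕ) :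
    pr q (fun χ : E n → Bool => ∀ v, ¬ t ≤ dg χ v) * (n * tb q (n - 1) t) ^ 2 ≤
      n * tb q (n - 1) t + q * (n * tb q (n - 1) (t - 1)) ^ 2 := by
  classical
  have h := second_moment (ι := E n) h0 h1 (univ : Finset (Fin n)) (fun v χ => t ≤ dg χ v)
  have e1 : ∑ v : Fin n, pr q (fun χ : E n → Bool => t ≤ dg χ v) = n * tb q (n - 1) t := by
    rw [Finset.sum_congr rfl fun v _ => pr_deg q v t]
    simp
  rw [e1] at h
  have e2 : pr q (fun χ : E n → Bool => ∀ v ∈ (univ : Finset (Fin n)), ¬ t ≤ dg χ v) =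
      pr q (fun χ : E n → Bool => ∀ v, ¬ t ≤ dg χ v) := by
    refine pr_congr q fun χ => ?_
    simp
  rw [e2] at h
  have hT := tb_nonneg h0 h1 (n - 1) t
  have pair : ∀ u v : Fin n, u ≠ v → pr q (fun χ : E n → Bool => t ≤ dg χ u ∧ t ≤ dg χ v) ≤
      tb q (n - 1) t ^ 2 + q * tb q (n - 1) (t - 1) ^ 2 := by
    intro u v huv
    have hne : ¬ (s(u, v)).IsDiag := by simpa using huv
    set e₀ : E n := ⟨s(u, v), hne⟩ with he₀
    have h2 : pr q (fun χ : E n → Bool => t ≤ dg χ u ∧ t ≤ dg χ v) ≤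
        pr q (fun χ : E n → Bool => (t ≤ hd χ ((star u).erase e₀) ∧
          t ≤ hd χ ((star v).erase e₀)) ∨
          ((Gr χ).Adj u v ∧ t ≤ dg χ u ∧ t ≤ dg χ v)) := by
      refine pr_mono h0 h1 fun χ h => ?_
      by_cases h3 : χ e₀ = true
      · exact Or.inr ⟨⟨hne, h3⟩, h⟩
      · left
        have key : ∀ S : Finset (E n), hd χ (S.erase e₀) = hd χ S := by
          intro S
          unfold hd
          congr 1
          ext e
          rw [Finset.mem_filter, Finset.mem_filter, Finset.mem_erase]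
          constructor
          · rintro ⟨⟨_, h5⟩, h6⟩
            exact ⟨h5, h6⟩
          · rintro ⟨h5, h6⟩
            refine ⟨⟨?_, h5⟩, h6⟩
            rintro rfl
            exact h3 h6
        rw [key, key]
        exact h
    refine h2.trans ((pr_or_le h0 h1 _ _).trans ?_)
    refine add_le_add ?_ (pr_adj h0 h1 u v huv t)
    have hdis : Disjoint ((star u).erase e₀) ((star v).erase e₀) := by
      rw [Finset.disjoint_left]
      intro e he he'
      rw [Finset.mem_erase, mem_star] at he he'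
      exact he.1 (Subtype.ext ((Sym2.mem_and_mem_iff huv).1 ⟨he.2, he'.2⟩))
    have mono : ∀ (S : Finset (E n)) (χ : E n → Bool), hd χ (S.erase e₀) ≤ hd χ S := by
      intro S χ
      unfold hd
      rw [Finset.filter_erase]
      exact Finset.card_le_card (Finset.erase_subset _ _)
    rw [indep q _ _ hdis _ _ (fun χ χ' h h' => hd_loc _ _ χ χ' h h')
          (fun χ χ' h h' => hd_loc _ _ χ χ' h h'), sq]
    refine mul_le_mul ?_ ?_ (pr_nonneg h0 h1 _) (tb_nonneg h0 h1 _ _)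
    · rw [← pr_deg q u t]
      exact pr_mono h0 h1 fun χ h => h.trans (mono _ χ)
    · rw [← pr_deg q v t]
      exact pr_mono h0 h1 fun χ h => h.trans (mono _ χ)
  have e3 : ∑ u : Fin n, ∑ v : Fin n, pr q (fun χ : E n → Bool => t ≤ dg χ u ∧ t ≤ dg χ v) ≤
      n * tb q (n - 1) t + n ^ 2 * (tb q (n - 1) t ^ 2 + q * tb q (n - 1) (t - 1) ^ 2) := by
    have e4 : ∀ u : Fin n, ∑ v : Fin n, pr q (fun χ : E n → Bool => t ≤ dg χ u ∧ t ≤ dg χ v) ≤
        tb q (n - 1) t + n * (tb q (n - 1) t ^ 2 + q * tb q (n - 1) (t - 1) ^ 2) := by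
      intro u
      rw [← Finset.add_sum_erase _ _ (Finset.mem_univ u)]
      refine add_le_add ?_ ?_
      · rw [← pr_deg q u t]
        exact pr_mono h0 h1 fun χ h => h.1
      · have e5 : ∀ v ∈ univ.erase u, pr q (fun χ : E n → Bool => t ≤ dg χ u ∧ t ≤ dg χ v) ≤
            tb q (n - 1) t ^ 2 + q * tb q (n - 1) (t - 1) ^ 2 := fun v hv =>
          pair u v (Finset.ne_of_mem_erase hv).symm
        refine (Finset.sum_le_sum e5).trans ?_
        rw [Finset.sum_const, nsmul_eq_mul]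
        refine mul_le_mul_of_nonneg_right ?_ (by positivity)
        rw [Finset.card_erase_of_mem (Finset.mem_univ u)]
        simp
    refine (Finset.sum_le_sum fun u _ => e4 u).trans (le_of_eq ?_)
    rw [Finset.sum_const, nsmul_eq_mul]
    simp
    ring
  nlinarith

/-- The vertices of degree at least `k` have pairwise distance at least three. -/
def Far {n : ℕ} (k : ℕ) (χ : E n → Bool) : Prop :=
  ∀ u v : Fin n, u ≠ v → k ≤ dg χ u → k ≤ dg χ v →
    ¬ (Gr χ).Adj u v ∧ ∀ w, ¬ ((Gr χ).Adj u w ∧ (Gr χ).Adj v w)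

theorem pr_far {n : ℕ} {q : ℝ} (h0 : 0 ≤ q) (h1 : q ≤ 1) (k : ℕ) :
    pr q (fun χ : E n → Bool => ¬ Far k χ) ≤
      (n ^ 2 * q + n ^ 3 * q ^ 2) * tb q (n - 1) (k - 3) ^ 2 := by
  classical
  have hmono : tb q (n - 1) (k - 1) ^ 2 ≤ tb q (n - 1) (k - 3) ^ 2 :=
    pow_le_pow_left₀ (tb_nonneg h0 h1 _ _) (tb_anti h0 h1 _ (by omega)) 2
  have h2 : pr q (fun χ : E n → Bool => ¬ Far k χ) ≤
      pr q (fun χ : E n → Bool =>
        (∃ p ∈ (univ : Finset (Fin n × Fin n)), p.1 ≠ p.2 ∧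
          ((Gr χ).Adj p.1 p.2 ∧ k ≤ dg χ p.1 ∧ k ≤ dg χ p.2)) ∨
        ∃ p ∈ (univ : Finset (Fin n × Fin n × Fin n)), (p.1 ≠ p.2.1 ∧ p.1 ≠ p.2.2 ∧ p.2.1 ≠ p.2.2) ∧
          (((Gr χ).Adj p.1 p.2.2 ∧ (Gr χ).Adj p.2.1 p.2.2) ∧ k ≤ dg χ p.1 ∧ k ≤ dg χ p.2.1)) := by
    refine pr_mono h0 h1 fun χ h => ?_
    unfold Far at h
    push Not at h
    obtain ⟨u, v, huv, hu, hv, h3⟩ := h
    by_cases h4 : (Gr χ).Adj u v
    · exact Or.inl ⟨(u, v), Finset.mem_univ _, huv, h4, hu, hv⟩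
    · obtain ⟨w, hw⟩ := h3 h4
      exact Or.inr ⟨(u, v, w), Finset.mem_univ _, ⟨huv, hw.1.ne, hw.2.ne⟩, hw, hu, hv⟩
  refine h2.trans ((pr_or_le h0 h1 _ _).trans ?_)
  have hzero : pr q (fun _ : E n → Bool => False) = 0 := by
    rw [pr_def]
    simp
  have h3 : pr q (fun χ : E n → Bool => ∃ p ∈ (univ : Finset (Fin n × Fin n)), p.1 ≠ p.2 ∧
      ((Gr χ).Adj p.1 p.2 ∧ k ≤ dg χ p.1 ∧ k ≤ dg χ p.2)) ≤
      n ^ 2 * q * tb q (n - 1) (k - 3) ^ 2 := by
    refine (pr_exists_le h0 h1 (univ : Finset (Fin n × Fin n)) (fun p χ => p.1 ≠ p.2 ∧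
      ((Gr χ).Adj p.1 p.2 ∧ k ≤ dg χ p.1 ∧ k ≤ dg χ p.2))).trans ?_
    have h4 : ∀ p ∈ (univ : Finset (Fin n × Fin n)), pr q (fun χ : E n → Bool => p.1 ≠ p.2 ∧
        ((Gr χ).Adj p.1 p.2 ∧ k ≤ dg χ p.1 ∧ k ≤ dg χ p.2)) ≤ q * tb q (n - 1) (k - 3) ^ 2 := by
      intro p _
      by_cases hp : p.1 ≠ p.2
      · refine le_trans (pr_mono h0 h1 fun χ h => h.2) ((pr_adj h0 h1 p.1 p.2 hp k).trans ?_)
        exact mul_le_mul_of_nonneg_left hmono h0
      · have : pr q (fun χ : E n → Bool => p.1 ≠ p.2 ∧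
            ((Gr χ).Adj p.1 p.2 ∧ k ≤ dg χ p.1 ∧ k ≤ dg χ p.2)) ≤ 0 := by
          rw [← hzero]
          exact pr_mono h0 h1 fun χ h => hp h.1
        exact this.trans (by positivity)
    refine (Finset.sum_le_sum h4).trans (le_of_eq ?_)
    rw [Finset.sum_const, nsmul_eq_mul]
    simp
    ring
  have h5 : pr q (fun χ : E n → Bool => ∃ p ∈ (univ : Finset (Fin n × Fin n × Fin n)),
      (p.1 ≠ p.2.1 ∧ p.1 ≠ p.2.2 ∧ p.2.1 ≠ p.2.2) ∧
      (((Gr χ).Adj p.1 p.2.2 ∧ (Gr χ).Adj p.2.1 p.2.2) ∧ k ≤ dg χ p.1 ∧ k ≤ dg χ p.2.1)) ≤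
      n ^ 3 * q ^ 2 * tb q (n - 1) (k - 3) ^ 2 := by
    refine (pr_exists_le h0 h1 (univ : Finset (Fin n × Fin n × Fin n)) (fun p χ =>
      (p.1 ≠ p.2.1 ∧ p.1 ≠ p.2.2 ∧ p.2.1 ≠ p.2.2) ∧
      (((Gr χ).Adj p.1 p.2.2 ∧ (Gr χ).Adj p.2.1 p.2.2) ∧ k ≤ dg χ p.1 ∧ k ≤ dg χ p.2.1))).trans ?_
    have h4 : ∀ p ∈ (univ : Finset (Fin n × Fin n × Fin n)), pr q (fun χ : E n → Bool =>
        (p.1 ≠ p.2.1 ∧ p.1 ≠ p.2.2 ∧ p.2.1 ≠ p.2.2) ∧
        (((Gr χ).Adj p.1 p.2.2 ∧ (Gr χ).Adj p.2.1 p.2.2) ∧ k ≤ dg χ p.1 ∧ k ≤ dg χ p.2.1)) ≤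
        q ^ 2 * tb q (n - 1) (k - 3) ^ 2 := by
      intro p _
      by_cases hp : p.1 ≠ p.2.1 ∧ p.1 ≠ p.2.2 ∧ p.2.1 ≠ p.2.2
      · exact le_trans (pr_mono h0 h1 fun χ h => h.2)
          (pr_cherry h0 h1 p.1 p.2.1 p.2.2 hp.1 hp.2.1 hp.2.2 k)
      · have : pr q (fun χ : E n → Bool =>
            (p.1 ≠ p.2.1 ∧ p.1 ≠ p.2.2 ∧ p.2.1 ≠ p.2.2) ∧
            (((Gr χ).Adj p.1 p.2.2 ∧ (Gr χ).Adj p.2.1 p.2.2) ∧ k ≤ dg χ p.1 ∧
              k ≤ dg χ p.2.1)) ≤ 0 := by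
          rw [← hzero]
          exact pr_mono h0 h1 fun χ h => hp h.1
        exact this.trans (by positivity)
    refine (Finset.sum_le_sum h4).trans (le_of_eq ?_)
    rw [Finset.sum_const, nsmul_eq_mul]
    simp
    ring
  linarith

end Pool.Agent.Run7.h320.RG
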