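import Pool.Agent.Run7.h320.RG.H

/-!
# The largest degrees of very sparse random graphs
-/

set_option autoImplicit false

namespace Pool.Agent.Run7.h320.RG

open Finset

theorem log_pow_le (C : ℝ) (j : ℕ) : ∃ n₀ : ℕ, ∀ n : ℕ, n₀ ≤ n → C * Real.log n ^ j ≤ n := by
  have h1 : (fun x : ℝ => Real.log x ^ j) =o[Filter.atTop] (id : ℝ → ℝ) :=
    Real.isLittleO_pow_log_id_atTop
  have hC : 0 < 1 / (|C| + 1) := by positivity
  have h2 := (h1.def hC)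
  have h3 := (tendsto_natCast_atTop_atTop (R := ℝ)).eventually h2
  obtain ⟨n₀, hn₀⟩ := Filter.eventually_atTop.1 h3
  refine ⟨n₀, fun n hn => ?_⟩
  have h4 := hn₀ n hn
  have h5 : (0 : ℝ) ≤ n := Nat.cast_nonneg n
  rw [Real.norm_eq_abs, Real.norm_eq_abs, id, abs_of_nonneg h5] at h4
  have h6 : C * Real.log n ^ j ≤ (|C| + 1) * |Real.log n ^ j| := by
    have a2 := le_abs_self (C * Real.log n ^ j)
    rw [abs_mul] at a2
    have a3 := abs_nonneg (Real.log n ^ j)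
    rw [add_mul, one_mul]
    linarith
  have h7 : (|C| + 1) * |Real.log n ^ j| ≤ (|C| + 1) * (1 / (|C| + 1) * n) :=
    mul_le_mul_of_nonneg_left h4 (by positivity)
  have h8 : (|C| + 1) * (1 / (|C| + 1) * n) = n := by
    field_simp
  linarith

theorem sm1 {x Y : ℝ} (h1 : 1 ≤ x) (h2 : x ≤ Y) : x + x ^ 2 ≤ 2 * Y ^ 2 := by nlinarith

theorem sm2 {x : ℝ} (h1 : 1 ≤ x) : x * x ≤ x ^ 3 := by
  have : x ^ 3 = x * x * x := by ring
  rw [this]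
  exact le_mul_of_one_le_right (by positivity) h1

theorem sm3 {X δ : ℝ} (h0 : 0 ≤ X) (h : 3 ≤ δ * X) : X ≤ δ / 3 * X ^ 2 := by
  have h1 := mul_le_mul_of_nonneg_right h h0
  have h2 : δ / 3 * X ^ 2 = (δ * X * X) / 3 := by ring
  rw [h2]
  linarith

/-- a few vertices of large degree, which are far apart -/
def Tame {n : ℕ} (ε : ℝ) (D₀ : ℕ) (χ : E n → Bool) : Prop :=
  ∃ m k : ℕ, D₀ ≤ m ∧ (k : ℝ) ≤ (1 - ε) * m + 1 ∧ (∃ v, m ≤ dg χ v) ∧ Far k χ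

theorem star_aux {K ε A δ L C₁ C₂ : ℝ} {D₀ n : ℕ} {q : ℝ} (hK : 1 ≤ K) (hC₁ : C₁ = 2 * K + 1)
    (hε : ε * (2 * C₁ + 3) = 1 / 12) (hε0 : 0 < ε) (hε1 : ε ≤ 1) (hδ : 0 < δ) (hA1 : 1 ≤ A) (hAδ : 3 ≤ δ * A)
    (hC₂ : C₂ * δ = 6 * K ^ 2 * A ^ 2) (hC₂0 : 0 ≤ C₂)
    (hL : L = Real.log n) (hL1 : 1 ≤ L)
    (hE : ((4 * C₁ + 5) * L) ^ 48 ≤ n ∧ (C₂ * L ^ 2) ^ 3 ≤ n ∧
      3 * K * (4 * C₁ + 5) ^ 2 * L ^ 3 ≤ δ * n ∧ A * (1 + 4 * (D₀ : ℝ)) ^ D₀ ≤ n)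
    (hE5 : 4 * (C₁ + 1) * L ≤ n)
    (hE7 : 2 * D₀ + 4 ≤ n) (hq0 : 1 ≤ n * q) (hqK : n * q ≤ K * L) (hKn : K * L ≤ n) :
    1 - δ ≤ pr q (Tame (n := n) ε D₀) := by
  classical
  have hn2 : (4 : ℝ) ≤ n := by exact_mod_cast (by omega : 4 ≤ n)
  have hn0 : (0 : ℝ) < n := by linarith
  have hq : 0 < q := by
    have h2 : 0 < (n : ℝ) * q := by linarith
    exact (mul_pos_iff_of_pos_left hn0).1 h2
  have hq1 : q ≤ 1 := by
    have h2 : (n : ℝ) * q ≤ n * 1 := by linarith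
    exact le_of_mul_le_mul_left h2 hn0
  have hC₁3 : 3 ≤ C₁ := by linarith
  have h2q : 2 * q ≤ n * q := mul_le_mul_of_nonneg_right (by linarith) hq.le
  have hexpL : Real.exp L = n := by
    rw [hL, Real.exp_log hn0]
  obtain ⟨N, hN⟩ : ∃ N : ℕ, N = n - 1 := ⟨_, rfl⟩
  have hNR : (N : ℝ) = n - 1 := by
    rw [hN, Nat.cast_sub (by omega)]
    simp
  obtain ⟨μ, hμ⟩ : ∃ μ : ℝ, μ = N * q := ⟨_, rfl⟩
  have hμ1 : 1 / 2 ≤ μ := by
    rw [hμ, hNR, sub_mul, one_mul]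
    linarith
  have hμ2 : μ ≤ K * L := by
    rw [hμ, hNR, sub_mul, one_mul]
    linarith
  have hμ0 : 0 < μ := by linarith
  -- the level `m`
  obtain ⟨m, hm⟩ : ∃ m : ℕ, m = Nat.findGreatest (fun t => A ≤ n * tb q N t) n := ⟨_, rfl⟩
  have hP0 : A ≤ n * tb q N 0 := by
    rw [tb_zero, mul_one]
    have h2 : (1 : ℝ) ≤ (1 + 4 * (D₀ : ℝ)) ^ D₀ := one_le_pow₀ (by
      have : (0 : ℝ) ≤ D₀ := Nat.cast_nonneg _
      linarith)
    exact (le_mul_of_one_le_right (by linarith) h2).trans hE.2.2.2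
  have hPm : A ≤ n * tb q N m := by
    rw [hm]
    exact Nat.findGreatest_spec (P := fun t => A ≤ n * tb q N t) (m := 0) (Nat.zero_le _) hP0
  have hX1 : 1 ≤ n * tb q N m := hA1.trans hPm
  have hTm0 : 0 ≤ tb q N m := tb_nonneg hq.le hq1 N m
  -- `m ≤ C₁ L`
  have hmL : (m : ℝ) ≤ C₁ * L := by
    have h2 := chernoff_big (s := Real.exp 1) hq.le hq1 (Real.one_le_exp zero_le_one) N m
    have h3 : Real.exp (N * q * (Real.exp 1 - 1)) ≤ Real.exp (2 * μ) := by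
      apply Real.exp_le_exp.2
      rw [← hμ, mul_comm 2 μ]
      have := Real.exp_one_lt_d9
      exact mul_le_mul_of_nonneg_left (by linarith) hμ0.le
    have h4 : Real.exp 1 ^ m = Real.exp m := by
      rw [← Real.exp_nat_mul, mul_one]
    rw [h4] at h2
    have h5 : Real.exp m ≤ Real.exp (L + 2 * μ) := by
      rw [Real.exp_add, hexpL]
      have h6 := Real.exp_pos (m : ℝ)
      calc Real.exp m ≤ (n * tb q N m) * Real.exp m := le_mul_of_one_le_left h6.le hX1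
        _ = n * (tb q N m * Real.exp m) := by ring
        _ ≤ n * Real.exp (2 * μ) := mul_le_mul_of_nonneg_left (h2.trans h3) hn0.le
    have h6 := Real.exp_le_exp.1 h5
    have h7 : C₁ * L = 2 * (K * L) + L := by
      rw [hC₁]
      ring
    linarith
  have hM2 : 2 * (m + 1) ≤ N := by
    have h2 : (2 : ℝ) * (m + 1) ≤ n / 2 := by
      have h4 : 4 * (C₁ + 1) * L = 4 * (C₁ * L) + 4 * L := by ring
      linarith
    have h3 : (2 : ℝ) * (m + 1) ≤ N := by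
      rw [hNR]
      linarith
    exact_mod_cast h3
  have hPm1 : n * tb q N (m + 1) < A := by
    have h2 := Nat.findGreatest_is_greatest (P := fun t => A ≤ n * tb q N t) (n := n) (k := m + 1)
      (by rw [← hm]; omega) (by omega)
    exact not_le.1 h2
  obtain ⟨ρ, hρ⟩ : ∃ ρ : ℝ, ρ = 1 + 2 * ((m + 1 : ℕ) : ℝ) / (N * q) := ⟨_, rfl⟩
  have hρ' : ρ = 1 + 2 * ((m : ℝ) + 1) / μ := by
    rw [hρ, hμ]
    push_cast
    ring
  have hm0 : (0 : ℝ) ≤ m := Nat.cast_nonneg m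
  have hρ1 : 1 ≤ ρ := by
    rw [hρ']
    have : 0 ≤ 2 * ((m : ℝ) + 1) / μ := by positivity
    linarith
  have hρL : ρ ≤ (4 * C₁ + 5) * L := by
    have h2 : 2 * ((m : ℝ) + 1) / μ ≤ 4 * (m + 1) := by
      rw [div_le_iff₀ hμ0]
      have h3 : 4 * ((m : ℝ) + 1) * (1 / 2) ≤ 4 * (m + 1) * μ :=
        mul_le_mul_of_nonneg_left hμ1 (by positivity)
      linarith
    have h4 : (4 * C₁ + 5) * L = 4 * (C₁ * L) + 5 * L := by ring
    rw [hρ', h4]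
    linarith
  have hρm : ρ ^ m ≤ Real.exp ((2 * C₁ + 3) * L) := by
    have h2 := chernoff_big (s := ρ) hq.le hq1 hρ1 N m
    have h3 : (N : ℝ) * q * (ρ - 1) = 2 * ((m : ℝ) + 1) := by
      rw [hρ', ← hμ]
      field_simp
      ring
    rw [h3] at h2
    have h4 : (2 * C₁ + 3) * L ≥ L + 2 * ((m : ℝ) + 1) := by
      have h5 : (2 * C₁ + 3) * L = 2 * (C₁ * L) + 3 * L := by ring
      linarith
    refine le_trans ?_ (Real.exp_le_exp.2 h4)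
    rw [Real.exp_add, hexpL]
    have h6 : 0 ≤ ρ ^ m := by positivity
    calc ρ ^ m ≤ (n * tb q N m) * ρ ^ m := le_mul_of_one_le_left h6 hX1
      _ = n * (tb q N m * ρ ^ m) := by ring
      _ ≤ _ := mul_le_mul_of_nonneg_left h2 hn0.le
  have hρ0 : 0 < ρ := by linarith
  have hlog1 : (m : ℝ) * Real.log ρ ≤ (2 * C₁ + 3) * L := by
    have h2 := (Real.log_le_iff_le_exp (by positivity : 0 < ρ ^ m)).2 hρm
    rwa [Real.log_pow] at h2
  have hlog2 : 48 * Real.log ρ ≤ L := by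
    have h2 : ρ ^ 48 ≤ n := (pow_le_pow_left₀ hρ0.le hρL 48).trans hE.1
    have h3 := Real.log_le_log (by positivity : 0 < ρ ^ 48) h2
    rw [Real.log_pow, ← hL] at h3
    exact_mod_cast h3
  have hlog0 : 0 ≤ Real.log ρ := Real.log_nonneg hρ1
  -- the level `k`
  obtain ⟨k, hk⟩ : ∃ k : ℕ, k = ⌈(1 - ε) * (m : ℝ)⌉₊ := ⟨_, rfl⟩
  have hk1 : (1 - ε) * (m : ℝ) ≤ k := by
    rw [hk]
    exact Nat.le_ceil _
  have hk2 : (k : ℝ) ≤ (1 - ε) * m + 1 := by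
    rw [hk]
    exact (Nat.ceil_lt_add_one (mul_nonneg (by linarith) hm0)).le
  have hkm : k - 3 ≤ m + 1 := by
    have h2 : (k : ℝ) ≤ m + 1 := by
      have h4 : 0 ≤ ε * (m : ℝ) := mul_nonneg hε0.le hm0
      have h5 : (1 - ε) * (m : ℝ) = m - ε * m := by ring
      linarith
    have h3 : k ≤ m + 1 := by exact_mod_cast h2
    omega
  obtain ⟨w, hw⟩ : ∃ w : ℕ, w = m + 1 - (k - 3) := ⟨_, rfl⟩
  have hkw : k - 3 + w = m + 1 := by omega
  have hwR : (w : ℝ) ≤ ε * m + 4 := by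
    have h2 : w + k ≤ m + 4 := by omega
    have h3 : (w : ℝ) + k ≤ m + 4 := by exact_mod_cast h2
    linarith
  have htk : tb q N (k - 3) ≤ ρ ^ w * tb q N (m + 1) := by
    have h2 := tb_pow hq hq1 N (m + 1) hM2 hρ w (k - 3) hkw.le
    rwa [hkw] at h2
  obtain ⟨y, hy⟩ : ∃ y : ℝ, y = ρ ^ w := ⟨_, rfl⟩
  have hy0 : 0 < y := by
    rw [hy]
    positivity
  have hy6 : y ^ 6 ≤ n := by
    have h2 : Real.log y ≤ L / 6 := by
      rw [hy, Real.log_pow]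
      have h3 : (w : ℝ) * Real.log ρ ≤ (ε * m + 4) * Real.log ρ :=
        mul_le_mul_of_nonneg_right hwR hlog0
      have h4 : ε * (m * Real.log ρ) ≤ ε * ((2 * C₁ + 3) * L) :=
        mul_le_mul_of_nonneg_left hlog1 hε0.le
      have h5 : ε * ((2 * C₁ + 3) * L) = L / 12 := by
        rw [← mul_assoc, hε]
        ring
      have h6 : (ε * m + 4) * Real.log ρ = ε * (m * Real.log ρ) + 4 * Real.log ρ := by ring
      linarith
    have h3 : y ≤ Real.exp (L / 6) := (Real.log_le_iff_le_exp hy0).1 h2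
    calc y ^ 6 ≤ Real.exp (L / 6) ^ 6 := pow_le_pow_left₀ hy0.le h3 6
      _ = Real.exp L := by
        rw [← Real.exp_nat_mul]
        congr 1
        push_cast
        ring
      _ = n := hexpL
  have hTk0 : 0 ≤ tb q N (k - 3) := tb_nonneg hq.le hq1 N _
  have hntk : n * tb q N (k - 3) ≤ y * A := by
    calc n * tb q N (k - 3) ≤ n * (y * tb q N (m + 1)) := by
          rw [hy]
          exact mul_le_mul_of_nonneg_left htk hn0.le
      _ = y * (n * tb q N (m + 1)) := by ring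
      _ ≤ y * A := mul_le_mul_of_nonneg_left hPm1.le hy0.le
  -- large vertices are far apart
  have hfar : pr q (fun χ : E n → Bool => ¬ Far k χ) ≤ δ / 3 := by
    have h2 := pr_far (n := n) hq.le hq1 k
    rw [← hN] at h2
    refine h2.trans ?_
    have h3 : ((n : ℝ) ^ 2 * q + n ^ 3 * q ^ 2) * tb q N (k - 3) ^ 2 * n =
        (n * q + (n * q) ^ 2) * (n * tb q N (k - 3)) ^ 2 := by ring
    have h4 : (n : ℝ) * q + (n * q) ^ 2 ≤ 2 * (K * L) ^ 2 := sm1 hq0 hqK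
    have h5 : (n * tb q N (k - 3)) ^ 2 ≤ (y * A) ^ 2 :=
      pow_le_pow_left₀ (by positivity) hntk 2
    have h6 : (n * q + (n * q) ^ 2) * (n * tb q N (k - 3)) ^ 2 ≤
        2 * (K * L) ^ 2 * (y * A) ^ 2 :=
      mul_le_mul h4 h5 (by positivity) (by positivity)
    have h7 : C₂ * L ^ 2 * y ^ 2 ≤ n := by
      have h8 : (C₂ * L ^ 2 * y ^ 2) ^ 3 ≤ (n : ℝ) ^ 3 := by
        calc (C₂ * L ^ 2 * y ^ 2) ^ 3 = (C₂ * L ^ 2) ^ 3 * y ^ 6 := by ring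
          _ ≤ (n : ℝ) * (n : ℝ) := mul_le_mul hE.2.1 hy6 (by positivity) hn0.le
          _ ≤ (n : ℝ) ^ 3 := sm2 (by linarith)
      exact le_of_pow_le_pow_left₀ (by norm_num) hn0.le h8
    have h8 : 6 * K ^ 2 * A ^ 2 * L ^ 2 * y ^ 2 ≤ δ * n := by
      rw [← hC₂]
      calc C₂ * δ * L ^ 2 * y ^ 2 = δ * (C₂ * L ^ 2 * y ^ 2) := by ring
        _ ≤ δ * n := mul_le_mul_of_nonneg_left h7 hδ.le
    have h9 : ((n : ℝ) ^ 2 * q + n ^ 3 * q ^ 2) * tb q N (k - 3) ^ 2 * n ≤ δ / 3 * n := by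
      rw [h3]
      refine h6.trans ?_
      have h10 : 2 * (K * L) ^ 2 * (y * A) ^ 2 = (6 * K ^ 2 * A ^ 2 * L ^ 2 * y ^ 2) / 3 := by ring
      rw [h10]
      linarith
    exact le_of_mul_le_mul_right h9 hn0
  -- there is a vertex of degree at least `m`
  have hnone : pr q (fun χ : E n → Bool => ∀ v, ¬ m ≤ dg χ v) ≤ 2 * (δ / 3) := by
    have h2 := pr_none2 (n := n) hq.le hq1 m
    rw [← hN] at h2
    obtain ⟨X, hX⟩ : ∃ X : ℝ, X = n * tb q N m := ⟨_, rfl⟩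
    have h3 : tb q N (m - 1) ≤ ρ * tb q N m := by
      rcases Nat.eq_zero_or_pos m with h | h
      · rw [h]
        have := tb_nonneg hq.le hq1 N 0
        simp only [Nat.zero_sub]
        exact le_mul_of_one_le_left this hρ1
      · have h4 := tb_pow hq hq1 N (m + 1) hM2 hρ 1 (m - 1) (by omega)
        rw [pow_one, Nat.sub_add_cancel h] at h4
        exact h4
    have h4 : n * tb q N (m - 1) ≤ ρ * X := by
      rw [hX]
      calc n * tb q N (m - 1) ≤ n * (ρ * tb q N m) := mul_le_mul_of_nonneg_left h3 hn0.le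
        _ = _ := by ring
    rw [← hX] at h2 hPm hX1
    have h5 : 0 ≤ n * tb q N (m - 1) := mul_nonneg hn0.le (tb_nonneg hq.le hq1 _ _)
    have h6 : (n * tb q N (m - 1)) ^ 2 ≤ (ρ * X) ^ 2 := pow_le_pow_left₀ h5 h4 2
    have h7 : q * ρ ^ 2 ≤ δ / 3 := by
      have h8 : ρ ^ 2 ≤ ((4 * C₁ + 5) * L) ^ 2 := pow_le_pow_left₀ hρ0.le hρL 2
      have h9 : (n * q) * ρ ^ 2 ≤ (K * L) * ((4 * C₁ + 5) * L) ^ 2 :=
        mul_le_mul hqK h8 (by positivity) (by positivity)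
      have h10 : (K * L) * ((4 * C₁ + 5) * L) ^ 2 = (3 * K * (4 * C₁ + 5) ^ 2 * L ^ 3) / 3 := by
        ring
      have h11 : n * (q * ρ ^ 2) ≤ n * (δ / 3) := by
        calc n * (q * ρ ^ 2) = (n * q) * ρ ^ 2 := by ring
          _ ≤ (3 * K * (4 * C₁ + 5) ^ 2 * L ^ 3) / 3 := h9.trans h10.le
          _ ≤ (δ * n) / 3 := by
            have := hE.2.2.1
            linarith
          _ = n * (δ / 3) := by ring
      exact le_of_mul_le_mul_left h11 hn0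
    have h8 : X ≤ δ / 3 * X ^ 2 :=
      sm3 (by linarith) (hAδ.trans (mul_le_mul_of_nonneg_left hPm hδ.le))
    have h9 : q * (n * tb q N (m - 1)) ^ 2 ≤ δ / 3 * X ^ 2 := by
      calc q * (n * tb q N (m - 1)) ^ 2 ≤ q * (ρ * X) ^ 2 := mul_le_mul_of_nonneg_left h6 hq.le
        _ = (q * ρ ^ 2) * X ^ 2 := by ring
        _ ≤ δ / 3 * X ^ 2 := mul_le_mul_of_nonneg_right h7 (by positivity)
    have h10 : pr q (fun χ : E n → Bool => ∀ v, ¬ m ≤ dg χ v) * X ^ 2 ≤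
        2 * (δ / 3) * X ^ 2 := by linarith
    exact le_of_mul_le_mul_right h10 (by positivity)
  -- `D₀ ≤ m`
  have hD₀m : D₀ ≤ m := by
    rw [hm]
    refine Nat.le_findGreatest (by omega) ?_
    have h2 := tb_pow (ρ := 1 + 2 * (D₀ : ℝ) / (N * q)) hq hq1 N D₀ (by omega) rfl D₀ 0 (by omega)
    rw [zero_add, tb_zero] at h2
    have h3 : 1 + 2 * (D₀ : ℝ) / (N * q) ≤ 1 + 4 * (D₀ : ℝ) := by
      rw [← hμ]
      have h4 : 2 * (D₀ : ℝ) / μ ≤ 4 * D₀ := by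
        rw [div_le_iff₀ hμ0]
        have h5 : (0 : ℝ) ≤ D₀ := Nat.cast_nonneg _
        have h6 : 4 * (D₀ : ℝ) * (1 / 2) ≤ 4 * D₀ * μ :=
          mul_le_mul_of_nonneg_left hμ1 (by positivity)
        linarith
      linarith
    have h4 : (1 + 2 * (D₀ : ℝ) / (N * q)) ^ D₀ ≤ (1 + 4 * (D₀ : ℝ)) ^ D₀ :=
      pow_le_pow_left₀ (by positivity) h3 D₀
    have h5 := tb_nonneg hq.le hq1 N D₀
    have h6 : 1 ≤ (1 + 4 * (D₀ : ℝ)) ^ D₀ * tb q N D₀ :=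
      h2.trans (mul_le_mul_of_nonneg_right h4 h5)
    calc A ≤ A * ((1 + 4 * (D₀ : ℝ)) ^ D₀ * tb q N D₀) :=
          le_mul_of_one_le_right (by linarith) h6
      _ = (A * (1 + 4 * (D₀ : ℝ)) ^ D₀) * tb q N D₀ := by ring
      _ ≤ n * tb q N D₀ := mul_le_mul_of_nonneg_right hE.2.2.2 h5
  -- conclusion
  have hbad : pr q (fun χ : E n → Bool => ¬ Tame ε D₀ χ) ≤ 2 * (δ / 3) + δ / 3 := by
    refine le_trans (pr_mono hq.le hq1 (Q := fun χ : E n → Bool =>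
      (∀ v, ¬ m ≤ dg χ v) ∨ ¬ Far k χ) fun χ h => ?_)
      ((pr_or_le hq.le hq1 _ _).trans (add_le_add hnone hfar))
    by_contra h2
    rw [not_or, not_not] at h2
    obtain ⟨h3, h4⟩ := h2
    push Not at h3
    exact h ⟨m, k, hD₀m, hk2, h3, h4⟩
  have hnot := pr_not q (Tame (n := n) ε D₀)
  linarith

theorem tame_prob (K : ℝ) : ∃ ε : ℝ, 0 < ε ∧ ε ≤ 1 ∧ ∀ (D₀ : ℕ) (δ : ℝ), 0 < δ →
    ∃ n₀ : ℕ, ∀ n : ℕ, n₀ ≤ n → ∀ q : ℝ, 1 ≤ n * q → n * q ≤ K * Real.log n →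
      q ≤ 1 ∧ 1 - δ ≤ pr q (Tame (n := n) ε D₀) := by
  obtain ⟨K', hK'⟩ : ∃ K' : ℝ, K' = max K 1 := ⟨_, rfl⟩
  have hK1 : 1 ≤ K' := by
    rw [hK']
    exact le_max_right _ _
  have hKK : K ≤ K' := by
    rw [hK']
    exact le_max_left _ _
  obtain ⟨C₁, hC₁⟩ : ∃ C₁ : ℝ, C₁ = 2 * K' + 1 := ⟨_, rfl⟩
  have hC₁3 : 3 ≤ C₁ := by linarith
  refine ⟨1 / (12 * (2 * C₁ + 3)), by positivity, ?_, ?_⟩
  · rw [div_le_one (by positivity)]
    linarith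
  intro D₀ δ hδ
  obtain ⟨A, hA⟩ : ∃ A : ℝ, A = 3 / δ + 1 := ⟨_, rfl⟩
  have hA1 : 1 ≤ A := by
    rw [hA]
    have : 0 ≤ 3 / δ := by positivity
    linarith
  have hAδ : 3 ≤ δ * A := by
    rw [hA, mul_add, mul_div_cancel₀ _ hδ.ne']
    linarith
  obtain ⟨C₂, hC₂⟩ : ∃ C₂ : ℝ, C₂ = 6 * K' ^ 2 * A ^ 2 / δ := ⟨_, rfl⟩
  have hC₂0 : 0 ≤ C₂ := by
    rw [hC₂]
    positivity
  obtain ⟨n₂, hn₂⟩ := log_pow_le ((4 * C₁ + 5) ^ 48) 48
  obtain ⟨n₃, hn₃⟩ := log_pow_le (C₂ ^ 3) 6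
  obtain ⟨n₄, hn₄⟩ := log_pow_le (3 * K' * (4 * C₁ + 5) ^ 2 / δ) 3
  obtain ⟨n₅, hn₅⟩ := log_pow_le (4 * (C₁ + 1)) 1
  obtain ⟨n₆, hn₆⟩ := log_pow_le K' 1
  refine ⟨max (max (max n₂ n₃) (max n₄ n₅)) (max n₆ (max ⌈A * (1 + 4 * (D₀ : ℝ)) ^ D₀⌉₊
    (2 * D₀ + 4))), ?_⟩
  intro n hn q hq0 hqK
  have i2 : n₂ ≤ n := (le_max_left _ _).trans ((le_max_left _ _).trans ((le_max_left _ _).trans hn))
  have i3 : n₃ ≤ n := (le_max_right _ _).trans ((le_max_left _ _).trans ((le_max_left _ _).trans hn))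
  have i4 : n₄ ≤ n := (le_max_left _ _).trans ((le_max_right _ _).trans ((le_max_left _ _).trans hn))
  have i5 : n₅ ≤ n := (le_max_right _ _).trans ((le_max_right _ _).trans ((le_max_left _ _).trans hn))
  have i6 : n₆ ≤ n := (le_max_left _ _).trans ((le_max_right _ _).trans hn)
  have i7 : ⌈A * (1 + 4 * (D₀ : ℝ)) ^ D₀⌉₊ ≤ n :=
    (le_max_left _ _).trans ((le_max_right _ _).trans ((le_max_right _ _).trans hn))
  have i8 : 2 * D₀ + 4 ≤ n :=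
    (le_max_right _ _).trans ((le_max_right _ _).trans ((le_max_right _ _).trans hn))
  have hn4 : (4 : ℝ) ≤ n := by exact_mod_cast (by omega : 4 ≤ n)
  have hn0 : (0 : ℝ) < n := by linarith
  have hL1 : 1 ≤ Real.log n := by
    rw [Real.le_log_iff_exp_le hn0]
    linarith [Real.exp_one_lt_d9]
  have hL0 : 0 ≤ Real.log n := by linarith
  have hKn : K' * Real.log n ≤ n := by
    have := hn₆ n i6
    rwa [pow_one] at this
  have hqK' : n * q ≤ K' * Real.log n := hqK.trans (mul_le_mul_of_nonneg_right hKK hL0)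
  refine ⟨?_, ?_⟩
  · have h2 : (n : ℝ) * q ≤ n * 1 := by linarith
    exact le_of_mul_le_mul_left h2 hn0
  refine star_aux (L := Real.log n) (A := A) (C₁ := C₁) (C₂ := C₂) hK1 hC₁ ?_ (by positivity) ?_ hδ
    hA1 hAδ ?_ hC₂0 rfl hL1 ⟨?_, ?_, ?_, ?_⟩ ?_ i8 hq0 hqK' hKn
  · field_simp
  · rw [div_le_one (by positivity)]
    linarith
  · rw [hC₂]
    field_simp
  · rw [mul_pow]
    exact hn₂ n i2
  · rw [mul_pow, ← pow_mul]
    exact hn₃ n i3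
  · have h2 := hn₄ n i4
    rw [div_mul_eq_mul_div, div_le_iff₀ hδ, mul_comm (n : ℝ) δ] at h2
    exact h2
  · exact (Nat.le_ceil _).trans (by exact_mod_cast i7)
  · have h2 := hn₅ n i5
    rwa [pow_one] at h2

end Pool.Agent.Run7.h320.RG
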