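import Pool.Agent.Run7.h320.E.HY
import Pool.Agent.Run7.h320.RG.J

/-!
# List total colouring of random graphs of logarithmic average degree
-/

set_option autoImplicit false

namespace Pool.Agent.Run7.h320.RG.LTC

/-- `c` is a proper total colouring of `G`. -/
def IsTotal {V : Type} (G : SimpleGraph V) {K : Type} (c : V ⊕ G.edgeSet → K) : Prop :=
  (∀ u v : V, G.Adj u v → c (Sum.inl u) ≠ c (Sum.inl v)) ∧
  (∀ e f : G.edgeSet, e ≠ f → (∃ v : V, v ∈ (e : Sym2 V) ∧ v ∈ (f : Sym2 V)) →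
    c (Sum.inr e) ≠ c (Sum.inr f)) ∧
  (∀ (v : V) (e : G.edgeSet), v ∈ (e : Sym2 V) → c (Sum.inl v) ≠ c (Sum.inr e))

/-- There is a proper total colouring from all lists of at least `k` colours. -/
def TotalChoosable {V : Type} (G : SimpleGraph V) (k : ℕ) : Prop :=
  ∀ L : V ⊕ G.edgeSet → Finset ℕ, (∀ x, k ≤ (L x).card) →
    ∃ c : V ⊕ G.edgeSet → ℕ, (∀ x, c x ∈ L x) ∧ IsTotal G c

/-- The list total colouring conjecture for the graph `G`: if there is a proper total colouring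
with `k` colours, then there is one from all lists of at least `k` colours. -/
def ListTotal {V : Type} (G : SimpleGraph V) : Prop :=
  ∀ k : ℕ, (∃ c : V ⊕ G.edgeSet → Fin k, IsTotal G c) → TotalChoosable G k

/-- `IsMaxDegree G D`: the maximum degree of `G` is `D`. -/
def IsMaxDegree {V : Type} (G : SimpleGraph V) (D : ℕ) : Prop :=
  (∀ v, (G.neighborSet v).ncard ≤ D) ∧ ∃ v, (G.neighborSet v).ncard = D

/-- The probability of the property `P` for the random graph `G(n, q)` on the vertices `0, …, n - 1`: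
the graph `G` has the weight `q ^ m (1 - q) ^ (n (n - 1) / 2 - m)`, where `m` is the number of its
edges. -/
noncomputable def prob {n : ℕ} (q : ℝ) (P : SimpleGraph (Fin n) → Prop) : ℝ := by
  classical exact ∑ G : SimpleGraph (Fin n), if P G then
    q ^ G.edgeSet.ncard * (1 - q) ^ (n.choose 2 - G.edgeSet.ncard) else 0

theorem card_le {V : Type} [Finite V] {k D : ℕ} (G : SimpleGraph V) (v : V)
    (hv : (G.neighborSet v).ncard = D) (c : V ⊕ G.edgeSet → Fin k) (hc : IsTotal G c) :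
    D + 1 ≤ k := by
  classical
  let φ : Option (G.neighborSet v) → Fin k := fun o => match o with
    | none => c (Sum.inl v)
    | some w => c (Sum.inr ⟨s(v, w.1), w.2⟩)
  have hφ : Function.Injective φ := by
    rintro (_ | a) (_ | b) h
    · rfl
    · exact absurd h (hc.2.2 v ⟨s(v, b.1), b.2⟩ (Sym2.mem_mk_left _ _))
    · exact absurd h.symm (hc.2.2 v ⟨s(v, a.1), a.2⟩ (Sym2.mem_mk_left _ _))
    · by_contra hne
      have hab : (⟨s(v, a.1), a.2⟩ : G.edgeSet) ≠ ⟨s(v, b.1), b.2⟩ := by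
        intro h2
        apply hne
        have h3 : s(v, a.1) = s(v, b.1) := congrArg Subtype.val h2
        have h4 : a = b := Subtype.ext (Sym2.congr_right.1 h3)
        rw [h4]
      exact hc.2.1 _ _ hab ⟨v, Sym2.mem_mk_left _ _, Sym2.mem_mk_left _ _⟩ h
  have h1 := Nat.card_le_card_of_injective φ hφ
  rw [Finite.card_option, Nat.card_eq_fintype_card (α := Fin k), Fintype.card_fin] at h1
  have h2 : Nat.card (G.neighborSet v) = D := hv
  omega

theorem choosable_of_LL {V : Type} (G : SimpleGraph V) (k : ℕ)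
    (h : Pool.Agent.Run7.h320.E.LL G 1 k) : TotalChoosable G k := by
  classical
  intro L hL
  have hinf : ∀ k : ℕ, ∃ S : Finset ℕ, k ≤ S.card := fun k => ⟨Finset.range k, by simp⟩
  obtain ⟨S, hS⟩ := hinf k
  obtain ⟨fV, fE, h1, h2, h3, h4, h5⟩ := h (fun v => L (Sum.inl v))
    (fun e => if he : e ∈ G.edgeSet then L (Sum.inr ⟨e, he⟩) else S) (fun v => hL _)
    (fun e he => by
      rw [dif_pos he]
      exact hL _)
  have hne : ∀ a b : ℕ, (1 : ℤ) ≤ |(a : ℤ) - (b : ℤ)| → a ≠ b := by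
    rintro a b h rfl
    simp at h
  refine ⟨fun x => match x with
    | Sum.inl v => fV v
    | Sum.inr e => fE e.1, ?_, ?_, ?_, ?_⟩
  · rintro (v | ⟨e, he⟩)
    · exact h1 v
    · have h6 := h2 e he
      rw [dif_pos he] at h6
      exact h6
  · intro u v huv
    exact h3 u v huv
  · rintro ⟨e, he⟩ ⟨f, hf⟩ hef ⟨v, hv1, hv2⟩
    obtain ⟨a, rfl⟩ := hv1
    obtain ⟨b, rfl⟩ := hv2
    refine h4 v a b he hf ?_
    rintro rfl
    exact hef rfl
  · rintro v ⟨e, he⟩ hv
    obtain ⟨a, rfl⟩ := hv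
    exact hne _ _ (h5 v a he)

/-- For all `K > 0` and `δ > 0` there is `n₀` such that for all `n ≥ n₀` and all `q` with
`1 ≤ q n ≤ K log n` the following holds with probability at least `1 - δ` for the random graph
`G(n, q)`: it has total colourings from all lists of `D + 1` colours, where `D` is its maximum
degree, and it satisfies the list total colouring conjecture. -/
theorem list_total (K δ : ℝ) (hδ : 0 < δ) : ∃ n₀ : ℕ, ∀ n : ℕ, n₀ ≤ n → ∀ q : ℝ,
    1 ≤ q * n → q * n ≤ K * Real.log n →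
    1 - δ ≤ prob q (fun G : SimpleGraph (Fin n) =>
      ∃ D, IsMaxDegree G D ∧ TotalChoosable G (D + 1) ∧ ListTotal G) := by
  classical
  obtain ⟨ε, hε0, hε1, h⟩ := Pool.Agent.Run7.h320.RG.whp_tame K
  obtain ⟨c, hc, D₁, hD₁⟩ := Pool.Agent.Run7.h320.E.hyN (ε / 2) (by positivity)
  obtain ⟨n₀, hn₀⟩ := h (max (max D₁ ⌈4 / ε⌉₊) (max 4 ⌈1 / c⌉₊)) δ hδ
  refine ⟨n₀, fun n hn q hq hqK => ?_⟩
  rw [mul_comm] at hq hqK
  refine hn₀ n hn q hq hqK _ ?_
  rintro G ⟨D, k, hD, hk, hmax, hex, hfar⟩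
  have hD1 : D₁ ≤ D := ((le_max_left _ _).trans (le_max_left _ _)).trans hD
  have hD2 : 4 / ε ≤ (D : ℝ) := (Nat.le_ceil _).trans
    (by exact_mod_cast ((le_max_right _ _).trans (le_max_left _ _)).trans hD)
  have hD4 : 4 ≤ D := ((le_max_left _ _).trans (le_max_right _ _)).trans hD
  have hD5 : 1 / c ≤ (D : ℝ) := (Nat.le_ceil _).trans
    (by exact_mod_cast ((le_max_right _ _).trans (le_max_right _ _)).trans hD)
  rw [div_le_iff₀ hε0] at hD2
  rw [div_le_iff₀ hc] at hD5
  have hD0 : (0 : ℝ) ≤ D := Nat.cast_nonneg _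
  have hsplit : (1 - ε / 2) * (D : ℝ) = (1 - ε) * D + (D * ε) / 2 := by ring
  have hpos : (0 : ℝ) ≤ (1 - ε) * D := mul_nonneg (by linarith) hD0
  obtain ⟨T, hT⟩ : ∃ T : Finset (Fin n), T = Finset.univ.filter
    (fun v => k ≤ (G.neighborSet v).ncard) := ⟨_, rfl⟩
  have memT : ∀ v, v ∈ T ↔ k ≤ (G.neighborSet v).ncard := by
    intro v
    rw [hT, Finset.mem_filter]
    simp
  have hT0 : ∀ v ∈ T, {w : Fin n | w ∈ T ∧ G.Adj v w}.ncard = 0 := by
    intro v hv
    rw [Set.ncard_eq_zero (Set.toFinite _)]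
    ext w
    constructor
    · rintro ⟨hw, hw'⟩
      exact (hfar v w (G.ne_of_adj hw') ((memT v).1 hv) ((memT w).1 hw)).1 hw'
    · intro hw
      exact absurd hw (Set.notMem_empty w)
  have hT1 : ∀ v, {w : Fin n | w ∈ T ∧ G.Adj v w}.ncard ≤ 1 := by
    intro v
    rw [Set.ncard_le_one (Set.toFinite _)]
    rintro a ⟨ha, ha'⟩ b ⟨hb, hb'⟩
    by_contra hab
    exact (hfar a b hab ((memT a).1 ha) ((memT b).1 hb)).2 v ⟨G.adj_symm ha', G.adj_symm hb'⟩
  have hT1R : ∀ v, ({w : Fin n | w ∈ T ∧ G.Adj v w}.ncard : ℝ) ≤ 1 := by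
    intro v
    exact_mod_cast hT1 v
  have hlow : ∀ x, x ∉ T → ((G.neighborSet x).ncard : ℝ) ≤ (1 - ε) * D := by
    intro x hx
    rw [memT, not_le] at hx
    have h2 : ((G.neighborSet x).ncard : ℝ) + 1 ≤ k := by exact_mod_cast hx
    linarith
  have hLL := hD₁ D 1 hD1 le_rfl (by push_cast; linarith) (Fin n) G T hmax
    (fun v hv => by
      rw [hT0 v hv, hsplit]
      push_cast
      linarith)
    (fun v x hv _ _ => by
      rw [hT0 v hv]
      have := hT1 x
      omega)
    (fun x hx => by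
      have h2 := hlow x hx
      have h3 := hT1R x
      rw [hsplit]
      push_cast
      linarith)
    (fun x y hx _ _ => by
      have h2 := hlow x hx
      have h3 := hT1R y
      rw [hsplit]
      linarith)
  have hk' : D + 2 * 1 - 1 = D + 1 := by omega
  rw [hk'] at hLL
  have hch : TotalChoosable G (D + 1) := choosable_of_LL G (D + 1) hLL
  refine ⟨D, ⟨hmax, hex⟩, hch, ?_⟩
  rintro l ⟨col, hcol⟩
  obtain ⟨v, hv⟩ := hex
  have h2 := card_le G v hv col hcol
  exact fun L hL => hch L (fun x => h2.trans (hL x))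

end Pool.Agent.Run7.h320.RG.LTC
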