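import Pool.Agent.N410.LD.Sizes
import Pool.Agent.R61.TotThree
import Pool.Agent.Run7.h320.E.Eng
import Pool.Agent.Run7.h320.RG.J

/-!
# Extending total colourings of matchings in random graphs of logarithmic average degree
-/

set_option autoImplicit false

namespace Pool.Agent.Run7.h320.RG.MatExt

/-- `f` (on the vertices) and `g` (on the edges) form a total colouring of `G` with colours from
`Fin k`. (The values of `g` on pairs that are not edges are irrelevant.) -/
def IsTotal {V : Type} (G : SimpleGraph V) {k : ℕ} (f : V → Fin k) (g : Sym2 V → Fin k) : Prop :=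
  (∀ u v, G.Adj u v → f u ≠ f v) ∧
  (∀ u v w, G.Adj u v → G.Adj u w → v ≠ w → g s(u, v) ≠ g s(u, w)) ∧
  ∀ u v, G.Adj u v → g s(u, v) ≠ f u

/-- Every total colouring of `H` in `G` with `k` colours extends to a total colouring of `G` with `k`
colours. -/
def AllExtend {V : Type} (G H : SimpleGraph V) (k : ℕ) : Prop :=
  ∀ (f0 : V → Fin k) (g0 : Sym2 V → Fin k), IsTotal H f0 g0 →
    (∀ u v, (∃ x, H.Adj u x) → (∃ y, H.Adj v y) → G.Adj u v → f0 u ≠ f0 v) →
    ∃ (f : V → Fin k) (g : Sym2 V → Fin k), IsTotal G f g ∧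
      ∀ u v, H.Adj u v → f u = f0 u ∧ g s(u, v) = g0 s(u, v)

/-- `IsMaxDegree G D`: the maximum degree of `G` is `D`. -/
def IsMaxDegree {V : Type} (G : SimpleGraph V) (D : ℕ) : Prop :=
  (∀ v, (G.neighborSet v).ncard ≤ D) ∧ ∃ v, (G.neighborSet v).ncard = D

/-- The probability of the property `P` for the random graph `G(n, q)` on the vertices `0, …, n - 1`:
the graph `G` has the weight `q ^ m (1 - q) ^ (n (n - 1) / 2 - m)`, where `m` is the number of its
edges. -/
noncomputable def prob {n : ℕ} (q : ℝ) (P : SimpleGraph (Fin n) → Prop) : ℝ := by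
  classical exact ∑ G : SimpleGraph (Fin n), if P G then
    q ^ G.edgeSet.ncard * (1 - q) ^ (n.choose 2 - G.edgeSet.ncard) else 0

/-- For all `K > 0` and `δ > 0` there is `n₀` such that for all `n ≥ n₀` and all `q` with
`1 ≤ q n ≤ K log n` the following holds with probability at least `1 - δ` for the random graph
`G(n, q)`, where `D` is its maximum degree: for every subgraph `H` which is a matching every total
colouring of `H` in the graph with `D + 3` colours extends to the graph. -/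
theorem matchings_extend (K δ : ℝ) (hδ : 0 < δ) : ∃ n₀ : ℕ, ∀ n : ℕ, n₀ ≤ n → ∀ q : ℝ,
    1 ≤ q * n → q * n ≤ K * Real.log n →
    1 - δ ≤ prob q (fun G : SimpleGraph (Fin n) =>
      ∃ D, IsMaxDegree G D ∧ ∀ H : SimpleGraph (Fin n), H ≤ G →
        (∀ u v w, H.Adj u v → H.Adj u w → v = w) → AllExtend G H (D + 3)) := by
  classical
  obtain ⟨ε, hε0, hε1, h⟩ := Pool.Agent.Run7.h320.RG.whp_tame K
  obtain ⟨D₁, hD₁⟩ := Pool.Agent.Run7.h320.E.lkg (ε / 2) (by positivity) (by linarith)
  obtain ⟨n₀, hn₀⟩ := h (max (max D₁ ⌈8 / ε⌉₊) 4) δ hδ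
  refine ⟨n₀, fun n hn q hq hqK => ?_⟩
  rw [mul_comm] at hq hqK
  refine hn₀ n hn q hq hqK _ ?_
  rintro G ⟨D, k, hD, hk, hmax, hex, hfar⟩
  refine ⟨D, ⟨hmax, hex⟩, ?_⟩
  intro Hm hHG hm f0 g0 h0 hprop
  have hD1 : D₁ ≤ D := ((le_max_left _ _).trans (le_max_left _ _)).trans hD
  have hD2 : 8 / ε ≤ (D : ℝ) := (Nat.le_ceil _).trans
    (by exact_mod_cast ((le_max_right _ _).trans (le_max_left _ _)).trans hD)
  have hD4 : 4 ≤ D := (le_max_right _ _).trans hD
  rw [div_le_iff₀ hε0] at hD2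
  refine Pool.Agent.R61.TotExt.plus3 G Hm D hmax hHG hm f0 g0 h0 hprop ?_
  intro L hsys
  obtain ⟨W, hW⟩ : ∃ W : Set (Fin n), W = {v | k ≤ (G.neighborSet v).ncard} := ⟨_, rfl⟩
  have memW : ∀ v, v ∈ W ↔ k ≤ (G.neighborSet v).ncard := by
    intro v
    rw [hW]
    exact Iff.rfl
  have hG' : G \ Hm ≤ G := sdiff_le
  have hW0 : ∀ v ∈ W, ((G \ Hm).neighborSet v ∩ W).ncard = 0 := by
    intro v hv
    rw [Set.ncard_eq_zero (Set.toFinite _)]
    ext w
    constructor
    · rintro ⟨hw, hw'⟩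
      have hvw : G.Adj v w := hG' hw
      exact (hfar v w (G.ne_of_adj hvw) ((memW v).1 hv) ((memW w).1 hw')).1 hvw
    · intro hw
      exact absurd hw (Set.notMem_empty w)
  have hW1 : ∀ v, ((G \ Hm).neighborSet v ∩ W).ncard ≤ 1 := by
    intro v
    rw [Set.ncard_le_one (Set.toFinite _)]
    rintro a ⟨ha, ha'⟩ b ⟨hb, hb'⟩
    by_contra hab
    have h1 : G.Adj v a := hG' ha
    have h2 : G.Adj v b := hG' hb
    exact (hfar a b hab ((memW a).1 ha') ((memW b).1 hb')).2 v ⟨G.adj_symm h1, G.adj_symm h2⟩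
  let Ho : SimpleGraph (Fin n) :=
    { Adj := fun a b => (G \ Hm).Adj a b ∧ a ∉ W ∧ b ∉ W
      symm := ⟨fun a b h => ⟨h.1.symm, h.2.2, h.2.1⟩⟩
      loopless := ⟨fun a h => (G \ Hm).loopless.irrefl a h.1⟩ }
  refine Pool.Agent.N410.LD.of_parts_sizes (G \ Hm) ⊥ Ho W L
    (fun u v huv => hsys.le huv) ?_ (fun u v h => h)
    (fun u v huv hu hv hn => absurd ⟨huv, hu, hv⟩ hn) ?_
    (Pool.Agent.TH559.LE.ok_bot L) ?_
  · intro u v
    constructor
    · intro h1
      exact absurd h1 (by simp)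
    · rintro ⟨h1, hu, hv⟩
      have h2 : G.Adj u v := hG' h1
      exact absurd h2 (hfar u v (G.ne_of_adj h2) ((memW u).1 hu) ((memW v).1 hv)).1
  · intro u w huw _ hw
    have h1 := hsys.l0 u w huw
    have h2 := hW0 w hw
    have h3 := hW1 u
    omega
  · intro L' hL'
    obtain ⟨χ, h1, h2⟩ := hD₁ D hD1 (Fin n) ℕ Ho L' (fun v => by
      rw [Pool.Agent.Run7.h320.E.dg_ncard]
      exact (Set.ncard_le_ncard (fun w hw => hG' hw.1) (Set.toFinite _)).trans (hmax v))
      (fun u v huv => by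
        rw [Pool.Agent.Run7.h320.E.dg_ncard]
        have h3 := hL' u v huv
        have h4 := hsys.l0 u v huv.1
        have h5 := hW1 u
        have h6 := hW1 v
        have h7 : (Ho.neighborSet u).ncard ≤ (G.neighborSet u).ncard :=
          Set.ncard_le_ncard (fun w hw => hG' hw.1) (Set.toFinite _)
        have h8 : (G.neighborSet u).ncard < k := by
          have := huv.2.1
          rw [memW] at this
          omega
        have h9 : ((Ho.neighborSet u).ncard : ℝ) + 1 ≤ k := by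
          exact_mod_cast (by omega : (Ho.neighborSet u).ncard + 1 ≤ k)
        have h10 : (D : ℝ) ≤ (L' s(u, v)).card + 3 := by
          exact_mod_cast (by omega : D ≤ (L' s(u, v)).card + 3)
        have h11 : (1 - ε) * (D : ℝ) = D - D * ε := by ring
        have h12 : ε / 2 * (D : ℝ) = (D * ε) / 2 := by ring
        linarith)
    exact ⟨χ, h1, h2⟩

end Pool.Agent.Run7.h320.RG.MatExt
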